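import Pool.Agent.W5h2.RG.Filt

/-!
# Automorphisms of graph products and the domination order
-/

set_option autoImplicit false

namespace Pool.Agent.W5h2.RG

open Pool.Agent.Y110.FJ
open Pool.Agent.R941.FJ (C_equiv C_le)
open Pool.Agent.R684.FP (FbC free_cyc)
open Pool.Agent.W5h2.GP

/-- an infinite cyclic subgroup -/
def InfCyc {M : Type} [Group M] (B : Subgroup M) : Prop :=
  ∃ b : M, B = Subgroup.zpowers b ∧ ∀ n : ℤ, b ^ n = 1 → n = 0

/-- the vertex `w` dominates `v`: the link of `v` is contained in the star of `w`, and `w` is in the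
star of `v` or the group of `v` is infinite cyclic -/
def Dom {V M : Type} [Group M] (Γ : SimpleGraph V) (A : V → Subgroup M) (v w : V) : Prop :=
  (∀ x, Γ.Adj v x → x = w ∨ Γ.Adj w x) ∧ (Γ.Adj v w ∨ v = w ∨ InfCyc (A v))

/-- The standard automorphisms of a graph product: automorphisms which permute the vertex groups by a
graph automorphism (for instance automorphisms of one vertex group), transvections (of two kinds)
and partial conjugations. -/
inductive GPGen {V M : Type} [Group M] (Γ : SimpleGraph V) (A : V → Subgroup M) : MulAut M → Prop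
  | perm (α : MulAut M) (σ : V ≃ V) (hσ : ∀ v w, Γ.Adj (σ v) (σ w) ↔ Γ.Adj v w)
      (h : ∀ v, (A v).map α.toMonoidHom = A (σ v)) : GPGen Γ A α
  | transvAdj (α : MulAut M) (v w : V) (hvw : Γ.Adj v w) (hd : ∀ x, Γ.Adj v x → x = w ∨ Γ.Adj w x)
      (θ : A v →* A w) (hv : ∀ x : A v, α x = x * θ x) (h : ∀ u, u ≠ v → ∀ x ∈ A u, α x = x) :
      GPGen Γ A α
  | transvCycR (α : MulAut M) (v w : V) (hvw : v ≠ w) (hd : ∀ x, Γ.Adj v x → x = w ∨ Γ.Adj w x)
      (b : M) (hb : A v = Subgroup.zpowers b) (hb' : ∀ n : ℤ, b ^ n = 1 → n = 0) (c : M) (hc : c ∈ A w)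
      (hv : α b = b * c) (h : ∀ u, u ≠ v → ∀ x ∈ A u, α x = x) : GPGen Γ A α
  | transvCycL (α : MulAut M) (v w : V) (hvw : v ≠ w) (hd : ∀ x, Γ.Adj v x → x = w ∨ Γ.Adj w x)
      (b : M) (hb : A v = Subgroup.zpowers b) (hb' : ∀ n : ℤ, b ^ n = 1 → n = 0) (c : M) (hc : c ∈ A w)
      (hv : α b = c * b) (h : ∀ u, u ≠ v → ∀ x ∈ A u, α x = x) : GPGen Γ A α
  | partialConj (α : MulAut M) (w : V) (c : M) (hc : c ∈ A w) (K : Set V)
      (hK : ∀ u ∈ K, ∀ u', u' ∉ K → Γ.Adj u u' → (u = w ∨ Γ.Adj w u) ∨ (u' = w ∨ Γ.Adj w u'))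
      (h : ∀ u ∈ K, ∀ x ∈ A u, α x = c * x * c⁻¹) (h' : ∀ u, u ∉ K → ∀ x ∈ A u, α x = x) :
      GPGen Γ A α

/-- the group generated by the standard automorphisms -/
def StdAut {V M : Type} [Group M] (Γ : SimpleGraph V) (A : V → Subgroup M) : Subgroup (MulAut M) :=
  Subgroup.closure {α | GPGen Γ A α}

/-- a height function for the domination order -/
structure IsHeight {V M : Type} [Group M] (Γ : SimpleGraph V) (A : V → Subgroup M) (r : V → ℕ) :
    Prop where
  eq : ∀ v w, Dom Γ A v w → Dom Γ A w v → r v = r w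
  lt : ∀ v w, Dom Γ A v w → ¬ Dom Γ A w v → r w < r v
  inv : ∀ σ : V ≃ V, (∀ v w, Γ.Adj (σ v) (σ w) ↔ Γ.Adj v w) →
    (∀ v, InfCyc (A (σ v)) ↔ InfCyc (A v)) → ∀ v, r (σ v) = r v

section dom

variable {V M : Type} [Group M] {Γ : SimpleGraph V} {A : V → Subgroup M}

theorem Dom.refl (v : V) : Dom Γ A v v := ⟨fun _ h => Or.inr h, Or.inr (Or.inl rfl)⟩

theorem Dom.trans {v w x : V} (h1 : Dom Γ A v w) (h2 : Dom Γ A w x) : Dom Γ A v x := by
  refine ⟨?_, ?_⟩
  · intro y hy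
    rcases h1.1 y hy with rfl | h
    · rcases h2.1 v hy.symm with rfl | h
      · exact Or.inr hy
      · rcases h1.1 x h.symm with h3 | h3
        · exact Or.inl h3.symm
        · exact Or.inr h3.symm
    · exact h2.1 y h
  · rcases h1.2 with h | rfl | h
    · rcases h2.1 v h.symm with rfl | h3
      · exact Or.inr (Or.inl rfl)
      · exact Or.inl h3.symm
    · exact h2.2
    · exact Or.inr (Or.inr h)

theorem Dom.map {σ : V ≃ V} (hσ : ∀ v w, Γ.Adj (σ v) (σ w) ↔ Γ.Adj v w)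
    (hc : ∀ v, InfCyc (A (σ v)) ↔ InfCyc (A v)) {v w : V} :
    Dom Γ A (σ v) (σ w) ↔ Dom Γ A v w := by
  unfold Dom
  rw [hσ, hc, σ.injective.eq_iff]
  refine and_congr_left fun _ => ?_
  constructor
  · intro h x hx
    rcases h (σ x) ((hσ _ _).2 hx) with h1 | h1
    · exact Or.inl (σ.injective h1)
    · exact Or.inr ((hσ _ _).1 h1)
  · intro h x hx
    obtain ⟨y, rfl⟩ := σ.surjective x
    rcases h y ((hσ _ _).1 hx) with h1 | h1
    · exact Or.inl (congrArg σ h1)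
    · exact Or.inr ((hσ _ _).2 h1)

variable (Γ A) in
/-- equivalent vertices -/
def stv : Setoid V where
  r v w := Dom Γ A v w ∧ Dom Γ A w v
  iseqv := ⟨fun v => ⟨Dom.refl v, Dom.refl v⟩, fun h => ⟨h.2, h.1⟩,
    fun h1 h2 => ⟨h1.1.trans h2.1, h2.2.trans h1.2⟩⟩

variable (Γ A) in
/-- the classes of equivalent vertices -/
def Cls : Type := Quotient (stv Γ A)

variable (Γ A) in
/-- the class of a vertex -/
def cl (v : V) : Cls Γ A := Quotient.mk (stv Γ A) v

theorem cl_eq {v w : V} : cl Γ A v = cl Γ A w ↔ Dom Γ A v w ∧ Dom Γ A w v := by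
  exact Quotient.eq (r := stv Γ A)

theorem cl_ex (q : Cls Γ A) : ∃ v, cl Γ A v = q := Quotient.exists_rep q

/-- equivalent vertices have the same neighbours outside of the class -/
theorem adj_cl {v v' w : V} (h : cl Γ A v = cl Γ A v') (hw : cl Γ A w ≠ cl Γ A v)
    (hvw : Γ.Adj v w) : Γ.Adj v' w := by
  rcases (cl_eq.1 h).1.1 w hvw with rfl | h1
  · exact absurd h.symm hw
  · exact h1

theorem adj_cl2 {v v' w w' : V} (h : cl Γ A v = cl Γ A v') (h' : cl Γ A w = cl Γ A w')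
    (hw : cl Γ A v ≠ cl Γ A w) (hvw : Γ.Adj v w) : Γ.Adj v' w' :=
  (adj_cl h' (by rwa [← h]) (adj_cl h (Ne.symm hw) hvw).symm).symm

theorem adj_in {v w x : V} (hx : cl Γ A v = cl Γ A x) (hw : cl Γ A v = cl Γ A w)
    (hvw : Γ.Adj v w) (hne : x ≠ v) : Γ.Adj v x := by
  rcases (cl_eq.1 hx).1.1 w hvw with rfl | h1
  · exact hvw
  · rcases (cl_eq.1 hw).2.1 x h1.symm with h2 | h2
    · exact absurd h2 hne
    · exact h2

/-- a class is a clique or independent -/
theorem dich (q : Cls Γ A) :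
    (∀ v w, cl Γ A v = q → cl Γ A w = q → v ≠ w → Γ.Adj v w) ∨
    ((∀ v w, cl Γ A v = q → cl Γ A w = q → ¬ Γ.Adj v w) ∧ ∀ v, cl Γ A v = q → InfCyc (A v)) := by
  by_cases h : ∃ v w, cl Γ A v = q ∧ cl Γ A w = q ∧ Γ.Adj v w
  · left
    obtain ⟨v, w, hv, hw, hvw⟩ := h
    intro x y hx hy hxy
    by_cases hxv : x = v
    · subst hxv
      exact adj_in (hv.trans hy.symm) (hv.trans hw.symm) hvw (Ne.symm hxy)
    · have h1 := adj_in (hv.trans hx.symm) (hv.trans hw.symm) hvw hxv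
      exact adj_in (hx.trans hy.symm) (hx.trans hv.symm) h1.symm (Ne.symm hxy)
  · by_cases h2 : ∀ v w, cl Γ A v = q → cl Γ A w = q → v = w
    · left
      intro v w hv hw hvw
      exact absurd (h2 v w hv hw) hvw
    · right
      push Not at h2
      obtain ⟨v, w, hv, hw, hvw⟩ := h2
      have hno : ∀ v w, cl Γ A v = q → cl Γ A w = q → ¬ Γ.Adj v w :=
        fun v w hv hw hvw => h ⟨v, w, hv, hw, hvw⟩
      refine ⟨hno, fun u hu => ?_⟩
      obtain ⟨x, hx, hxu⟩ : ∃ x, cl Γ A x = q ∧ u ≠ x := by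
        by_cases h3 : u = v
        · exact ⟨w, hw, h3 ▸ hvw⟩
        · exact ⟨v, hv, h3⟩
      rcases (cl_eq.1 (hu.trans hx.symm)).1.2 with h4 | h4 | h4
      · exact absurd h4 (hno _ _ hu hx)
      · exact absurd h4 hxu
      · exact h4

variable (Γ A) in
/-- the graph of the classes -/
def LC : SimpleGraph (Cls Γ A) where
  Adj p q := p ≠ q ∧ ∃ v w, cl Γ A v = p ∧ cl Γ A w = q ∧ Γ.Adj v w
  symm := ⟨by
    rintro p q ⟨h, v, w, hv, hw, hvw⟩
    exact ⟨h.symm, w, v, hw, hv, hvw.symm⟩⟩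
  loopless := ⟨fun p h => h.1 rfl⟩

theorem LC_adj {v w : V} (h : (LC Γ A).Adj (cl Γ A v) (cl Γ A w)) : Γ.Adj v w := by
  obtain ⟨hne, v', w', hv', hw', h1⟩ := h
  exact adj_cl2 hv' hw' (by rwa [hv', hw']) h1

end dom

section gp

variable {V M : Type} [Group M] {Γ : SimpleGraph V} {A : V → Subgroup M} {r : V → ℕ}

variable (Γ A) in
/-- the group generated by a class -/
def Aq (q : Cls Γ A) : Subgroup M := Gen A {v | cl Γ A v = q}

theorem A_le_Aq (v : V) : A v ≤ Aq Γ A (cl Γ A v) :=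
  le_Gen (S := {u | cl Γ A u = cl Γ A v}) (i := v) rfl

theorem Aq_le {q : Cls Γ A} {X : Subgroup M} (h : ∀ v, cl Γ A v = q → A v ≤ X) : Aq Γ A q ≤ X :=
  iSup₂_le h

/-- the height of a class -/
noncomputable def rq (r : V → ℕ) (q : Cls Γ A) : ℕ := r (Classical.choose (cl_ex q))

theorem rq_cl (hr : IsHeight Γ A r) (v : V) : rq r (cl Γ A v) = r v := by
  have h := cl_eq.1 (Classical.choose_spec (cl_ex (cl Γ A v)))
  exact hr.eq _ _ h.1 h.2

variable (Γ A r) in
/-- the normal closures of the groups of the classes of small height -/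
noncomputable def Lq (k : ℕ) : Subgroup M := Low (⊤ : Subgroup M) (Aq Γ A) (rq r) k

theorem Lq_mem {k : ℕ} {q : Cls Γ A} (h : rq r q < k) : Aq Γ A q ≤ Lq Γ A r k := by
  intro x hx
  refine mem_Oth' (j := q) ?_ hx
  intro h1
  have h2 : k ≤ rq r q := h1
  omega

theorem Lq_mono {k k' : ℕ} (h : k ≤ k') : Lq Γ A r k ≤ Lq Γ A r k' := by
  refine Oth_anti ?_
  intro q hq
  have h1 : k' ≤ rq r q := hq
  show k ≤ rq r q
  omega

theorem Lq_conj {k : ℕ} (m : M) {x : M} (hx : x ∈ Lq Γ A r k) : m * x * m⁻¹ ∈ Lq Γ A r k :=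
  Oth_conj _ (Subgroup.mem_top m) hx

/-- dominating vertices -/
theorem up_le (hr : IsHeight Γ A r) {v w : V} (h : Dom Γ A v w) :
    A w ≤ Aq Γ A (cl Γ A v) ⊔ Lq Γ A r (r v) := by
  by_cases h1 : Dom Γ A w v
  · have h2 : cl Γ A v = cl Γ A w := cl_eq.2 ⟨h, h1⟩
    rw [h2]
    exact (A_le_Aq w).trans le_sup_left
  · refine ((A_le_Aq w).trans (Lq_mem (q := cl Γ A w) ?_)).trans le_sup_right
    rw [rq_cl hr]
    exact hr.lt v w h h1

variable (Γ A) in
/-- the group generated by the dominating vertex groups -/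
def Up (v : V) : Subgroup M := Gen A {w | Dom Γ A v w}

theorem le_Up {v w : V} (h : Dom Γ A v w) : A w ≤ Up Γ A v := le_Gen (S := {w | Dom Γ A v w}) h

theorem Up_le (hr : IsHeight Γ A r) (v : V) : Up Γ A v ≤ Aq Γ A (cl Γ A v) ⊔ Lq Γ A r (r v) :=
  iSup₂_le fun _ hw => up_le hr hw

/-- invariance of the filtration -/
theorem inv_L (hr : IsHeight Γ A r) (α : M →* M) (hα : ∀ v, ∃ q, rq r q = r v ∧ ∃ m : M,
    ∀ x ∈ A v, m * α x * m⁻¹ ∈ Aq Γ A q ⊔ Lq Γ A r (r v)) (k : ℕ) {x : M} (hx : x ∈ Lq Γ A r k) :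
    α x ∈ Lq Γ A r k := by
  have h1 : Lq Γ A r k ≤ (Lq Γ A r k).comap α := by
    conv_lhs => rw [Lq, Low, Oth]
    rw [Subgroup.closure_le]
    rintro _ ⟨q, hq, m, -, b, hb, rfl⟩
    have hqk : rq r q < k := by
      by_contra h
      exact hq (not_lt.1 h)
    show α (m * b * m⁻¹) ∈ Lq Γ A r k
    rw [map_mul, map_mul, map_inv]
    refine Lq_conj _ ?_
    have h2 : Aq Γ A q ≤ (Lq Γ A r k).comap α := by
      refine Aq_le fun v hv x hx => ?_
      subst hv
      rw [rq_cl hr] at hqk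
      obtain ⟨q', hq', m', hm'⟩ := hα v
      have h3 : Aq Γ A q' ⊔ Lq Γ A r (r v) ≤ Lq Γ A r k :=
        sup_le (Lq_mem (by rw [hq']; exact hqk)) (Lq_mono hqk.le)
      have h4 := Lq_conj m'⁻¹ (h3 (hm' x hx))
      have h5 : m'⁻¹ * (m' * α x * m'⁻¹) * m'⁻¹⁻¹ = α x := by group
      rw [h5] at h4
      exact h4
    exact h2 hb
  exact h1 hx

variable (Γ A r) in
/-- an automorphism permutes the class groups up to conjugation and modulo larger classes -/
def Rr (α : MulAut M) : Prop := ∀ q : Cls Γ A, ∃ q' : Cls Γ A, rq r q' = rq r q ∧ ∃ m : M, ∀ x,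
  x ∈ Aq Γ A q ⊔ Lq Γ A r (rq r q) ↔ m * α x * m⁻¹ ∈ Aq Γ A q' ⊔ Lq Γ A r (rq r q)

theorem R_of (α : MulAut M) (hL : ∀ k x, x ∈ Lq Γ A r k → α x ∈ Lq Γ A r k)
    (hL' : ∀ k x, x ∈ Lq Γ A r k → α⁻¹ x ∈ Lq Γ A r k)
    (h : ∀ q : Cls Γ A, ∃ q' : Cls Γ A, rq r q' = rq r q ∧ ∃ m : M,
      (∀ v, cl Γ A v = q → ∀ x ∈ A v, m * α x * m⁻¹ ∈ Aq Γ A q' ⊔ Lq Γ A r (rq r q)) ∧
      ∀ v, cl Γ A v = q' → ∀ x ∈ A v, α⁻¹ (m⁻¹ * x * m) ∈ Aq Γ A q ⊔ Lq Γ A r (rq r q)) :
    Rr Γ A r α := by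
  intro q
  obtain ⟨q', hq', m, h1, h2⟩ := h q
  refine ⟨q', hq', m, fun x => ⟨fun hx => ?_, fun hx => ?_⟩⟩
  · have h3 : Aq Γ A q ⊔ Lq Γ A r (rq r q) ≤ (Aq Γ A q' ⊔ Lq Γ A r (rq r q)).comap
        ((MulAut.conj m).toMonoidHom.comp α.toMonoidHom) := by
      refine sup_le (Aq_le h1) ?_
      intro y hy
      exact Subgroup.mem_sup_right (Lq_conj m (hL _ y hy))
    exact h3 hx
  · have h3 : Aq Γ A q' ⊔ Lq Γ A r (rq r q) ≤ (Aq Γ A q ⊔ Lq Γ A r (rq r q)).comap
        ((α⁻¹ : MulAut M).toMonoidHom.comp (MulAut.conj m⁻¹).toMonoidHom) := by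
      refine sup_le (Aq_le ?_) ?_
      · intro v hv x hx
        show α⁻¹ (m⁻¹ * x * m⁻¹⁻¹) ∈ Aq Γ A q ⊔ Lq Γ A r (rq r q)
        rw [inv_inv]
        exact h2 v hv x hx
      · intro y hy
        exact Subgroup.mem_sup_right (hL' _ _ (Lq_conj m⁻¹ hy))
    have h4 : α⁻¹ (m⁻¹ * (m * α x * m⁻¹) * m⁻¹⁻¹) ∈ Aq Γ A q ⊔ Lq Γ A r (rq r q) := h3 hx
    have h5 : m⁻¹ * (m * α x * m⁻¹) * m⁻¹⁻¹ = α x := by group
    rw [h5, MulAut.inv_apply_self] at h4
    exact h4

theorem R_one : Rr Γ A r 1 := by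
  intro q
  refine ⟨q, rfl, 1, fun x => ?_⟩
  rw [one_mul, inv_one, mul_one]
  rfl

theorem R_mul {α β : MulAut M} (hα : Rr Γ A r α) (hβ : Rr Γ A r β) : Rr Γ A r (α * β) := by
  intro q
  obtain ⟨q1, h1, m1, e1⟩ := hβ q
  obtain ⟨q2, h2, m2, e2⟩ := hα q1
  refine ⟨q2, h2.trans h1, m2 * α m1, fun x => ?_⟩
  rw [e1]
  rw [h1] at e2
  rw [e2, map_mul, map_mul, map_inv]
  have : m2 * (α m1 * α (β x) * (α m1)⁻¹) * m2⁻¹ = m2 * α m1 * (α * β) x * (m2 * α m1)⁻¹ := by
    rw [MulAut.mul_apply]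
    group
  rw [this]

/-- infinite cyclic subgroups are preserved -/
theorem InfCyc.map {B : Subgroup M} (α : MulAut M) (h : InfCyc B) :
    InfCyc (B.map α.toMonoidHom) := by
  obtain ⟨b, rfl, h2⟩ := h
  refine ⟨α b, MonoidHom.map_zpowers _ _, fun n hn => h2 n ?_⟩
  rw [← map_zpow] at hn
  exact (map_eq_one_iff α α.injective).1 hn

/-- automorphisms which permute the vertex groups -/
theorem kindG (hr : IsHeight Γ A r) {α : MulAut M} {σ : V ≃ V}
    (hσ : ∀ v w, Γ.Adj (σ v) (σ w) ↔ Γ.Adj v w) (h : ∀ v, (A v).map α.toMonoidHom = A (σ v)) :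
    Rr Γ A r α := by
  have hm : ∀ v, ∀ x ∈ A v, α x ∈ A (σ v) := by
    intro v x hx
    rw [← h]
    exact ⟨x, hx, rfl⟩
  have hi : ∀ v, ∀ x ∈ A v, α⁻¹ x ∈ A (σ.symm v) := by
    intro v x hx
    have h1 := h (σ.symm v)
    rw [Equiv.apply_symm_apply] at h1
    rw [← h1] at hx
    obtain ⟨y, hy, rfl⟩ := hx
    show α⁻¹ (α y) ∈ _
    rw [MulAut.inv_apply_self]
    exact hy
  have hc : ∀ v, InfCyc (A (σ v)) ↔ InfCyc (A v) := by
    intro v
    constructor
    · intro h1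
      have h2 := h1.map α⁻¹
      have h3 : (A (σ v)).map (α⁻¹ : MulAut M).toMonoidHom = A v := by
        rw [← h, Subgroup.map_map]
        have : (α⁻¹ : MulAut M).toMonoidHom.comp α.toMonoidHom = MonoidHom.id M := by
          ext x
          exact MulAut.inv_apply_self M α x
        rw [this, Subgroup.map_id]
      rwa [h3] at h2
    · intro h1
      rw [← h]
      exact h1.map α
  have hσ' : ∀ v w, Γ.Adj (σ.symm v) (σ.symm w) ↔ Γ.Adj v w := by
    intro v w
    rw [← hσ, Equiv.apply_symm_apply, Equiv.apply_symm_apply]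
  have hc' : ∀ v, InfCyc (A (σ.symm v)) ↔ InfCyc (A v) := by
    intro v
    rw [← hc, Equiv.apply_symm_apply]
  refine R_of α (fun k x hx => inv_L hr α.toMonoidHom (fun v => ⟨cl Γ A (σ v), ?_, 1, ?_⟩) k hx)
    (fun k x hx => inv_L hr (α⁻¹ : MulAut M).toMonoidHom
      (fun v => ⟨cl Γ A (σ.symm v), ?_, 1, ?_⟩) k hx) ?_
  · rw [rq_cl hr, hr.inv σ hσ hc]
  · intro y hy
    rw [one_mul, inv_one, mul_one]
    exact Subgroup.mem_sup_left (A_le_Aq _ (hm v y hy))
  · rw [rq_cl hr, hr.inv σ.symm hσ' hc']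
  · intro y hy
    rw [one_mul, inv_one, mul_one]
    exact Subgroup.mem_sup_left (A_le_Aq _ (hi v y hy))
  · intro q
    obtain ⟨u, rfl⟩ := cl_ex q
    refine ⟨cl Γ A (σ u), ?_, 1, ?_, ?_⟩
    · rw [rq_cl hr, rq_cl hr, hr.inv σ hσ hc]
    · intro v hv y hy
      rw [one_mul, inv_one, mul_one]
      have h1 : cl Γ A (σ v) = cl Γ A (σ u) := by
        rw [cl_eq] at hv ⊢
        exact ⟨(Dom.map hσ hc).2 hv.1, (Dom.map hσ hc).2 hv.2⟩
      rw [← h1]
      exact Subgroup.mem_sup_left (A_le_Aq _ (hm v y hy))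
    · intro v hv y hy
      rw [inv_one, one_mul, mul_one]
      have h1 : cl Γ A (σ.symm v) = cl Γ A u := by
        rw [cl_eq] at hv ⊢
        have h2 := (Dom.map (Γ := Γ) (A := A) hσ' hc' (v := v) (w := σ u)).2 hv.1
        have h3 := (Dom.map (Γ := Γ) (A := A) hσ' hc' (v := σ u) (w := v)).2 hv.2
        rw [Equiv.symm_apply_apply] at h2 h3
        exact ⟨h2, h3⟩
      rw [← h1]
      exact Subgroup.mem_sup_left (A_le_Aq _ (hi v y hy))

/-- triangular automorphisms -/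
theorem kindU (hr : IsHeight Γ A r) {α : MulAut M} (h : ∀ v, ∀ x ∈ A v, α x ∈ Up Γ A v)
    (h' : ∀ v, ∀ x ∈ A v, α⁻¹ x ∈ Up Γ A v) : Rr Γ A r α := by
  refine R_of α (fun k x hx => inv_L hr α.toMonoidHom
      (fun v => ⟨cl Γ A v, rq_cl hr v, 1, ?_⟩) k hx)
    (fun k x hx => inv_L hr (α⁻¹ : MulAut M).toMonoidHom
      (fun v => ⟨cl Γ A v, rq_cl hr v, 1, ?_⟩) k hx) ?_
  · intro y hy
    rw [one_mul, inv_one, mul_one]
    exact Up_le hr v (h v y hy)
  · intro y hy
    rw [one_mul, inv_one, mul_one]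
    exact Up_le hr v (h' v y hy)
  · intro q
    refine ⟨q, rfl, 1, ?_, ?_⟩
    · intro v hv y hy
      subst hv
      rw [one_mul, inv_one, mul_one, rq_cl hr]
      exact Up_le hr v (h v y hy)
    · intro v hv y hy
      subst hv
      rw [inv_one, one_mul, mul_one, rq_cl hr]
      exact Up_le hr v (h' v y hy)

/-- partial conjugations -/
theorem kindP (hA : ∀ v w, Γ.Adj v w → ∀ x ∈ A v, ∀ y ∈ A w, x * y = y * x)
    (hab : ∀ v, ∀ x ∈ A v, ∀ y ∈ A v, x * y = y * x) (hr : IsHeight Γ A r) {α : MulAut M} {w : V}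
    {c : M} (hc : c ∈ A w) {K : Set V}
    (hK : ∀ u ∈ K, ∀ u', u' ∉ K → Γ.Adj u u' → (u = w ∨ Γ.Adj w u) ∨ (u' = w ∨ Γ.Adj w u'))
    (h : ∀ u ∈ K, ∀ x ∈ A u, α x = c * x * c⁻¹) (h' : ∀ u, u ∉ K → ∀ x ∈ A u, α x = x) :
    Rr Γ A r α := by
  have hw : α c = c := by
    by_cases hwK : w ∈ K
    · rw [h w hwK c hc, mul_inv_cancel_right]
    · exact h' w hwK c hc
  have hi : ∀ u ∈ K, ∀ x ∈ A u, α⁻¹ x = c⁻¹ * x * c := by
    intro u hu x hx
    have h1 : α (c⁻¹ * x * c) = x := by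
      rw [map_mul, map_mul, map_inv, hw, h u hu x hx]
      group
    conv_lhs => rw [← h1]
    rw [MulAut.inv_apply_self]
  have hi' : ∀ u, u ∉ K → ∀ x ∈ A u, α⁻¹ x = x := by
    intro u hu x hx
    conv_lhs => rw [← h' u hu x hx]
    rw [MulAut.inv_apply_self]
  refine R_of α (fun k x hx => inv_L hr α.toMonoidHom (fun v => ⟨cl Γ A v, rq_cl hr v, ?_⟩) k hx)
    (fun k x hx => inv_L hr (α⁻¹ : MulAut M).toMonoidHom
      (fun v => ⟨cl Γ A v, rq_cl hr v, ?_⟩) k hx) ?_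
  · by_cases hv : v ∈ K
    · refine ⟨c⁻¹, fun y hy => ?_⟩
      show c⁻¹ * α y * c⁻¹⁻¹ ∈ Aq Γ A (cl Γ A v) ⊔ Lq Γ A r (r v)
      have h1 : c⁻¹ * α y * c⁻¹⁻¹ = y := by
        rw [h v hv y hy]
        group
      rw [h1]
      exact Subgroup.mem_sup_left (A_le_Aq _ hy)
    · refine ⟨1, fun y hy => ?_⟩
      show 1 * α y * 1⁻¹ ∈ Aq Γ A (cl Γ A v) ⊔ Lq Γ A r (r v)
      rw [one_mul, inv_one, mul_one, h' v hv y hy]
      exact Subgroup.mem_sup_left (A_le_Aq _ hy)
  · by_cases hv : v ∈ K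
    · refine ⟨c, fun y hy => ?_⟩
      show c * α⁻¹ y * c⁻¹ ∈ Aq Γ A (cl Γ A v) ⊔ Lq Γ A r (r v)
      have h1 : c * α⁻¹ y * c⁻¹ = y := by
        rw [hi v hv y hy]
        group
      rw [h1]
      exact Subgroup.mem_sup_left (A_le_Aq _ hy)
    · refine ⟨1, fun y hy => ?_⟩
      show 1 * α⁻¹ y * 1⁻¹ ∈ Aq Γ A (cl Γ A v) ⊔ Lq Γ A r (r v)
      rw [one_mul, inv_one, mul_one, hi' v hv y hy]
      exact Subgroup.mem_sup_left (A_le_Aq _ hy)
  · intro q
    refine ⟨q, rfl, ?_⟩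
    by_cases hq : ∀ v, cl Γ A v = q → v ∈ K
    · refine ⟨c⁻¹, ?_, ?_⟩
      · intro v hv y hy
        have h1 : c⁻¹ * α y * c⁻¹⁻¹ = y := by
          rw [h v (hq v hv) y hy]
          group
        rw [h1, ← hv]
        exact Subgroup.mem_sup_left (A_le_Aq _ hy)
      · intro v hv y hy
        have h1 : c⁻¹⁻¹ * y * c⁻¹ = α y := by
          rw [h v (hq v hv) y hy]
          group
        rw [h1, MulAut.inv_apply_self, ← hv]
        exact Subgroup.mem_sup_left (A_le_Aq _ hy)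
    · push Not at hq
      obtain ⟨v0, hv0, hv0K⟩ := hq
      have key : ∀ v, cl Γ A v = q → v ∈ K → (∀ y ∈ A v, y * c = c * y) ∨ Dom Γ A v w := by
        intro v hv hvK
        by_cases hcc : v = w ∨ Γ.Adj w v
        · left
          intro y hy
          rcases hcc with rfl | hcc
          · exact hab _ y hy c hc
          · exact hA _ _ hcc.symm y hy c hc
        · right
          have hvv := cl_eq.1 (hv.trans hv0.symm)
          refine ⟨?_, ?_⟩
          · intro x hx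
            by_contra hcon
            have hxK : x ∈ K := by
              by_contra hxK
              rcases hK v hvK x hxK hx with h1 | h1
              · exact hcc h1
              · exact hcon h1
            rcases hvv.1.1 x hx with rfl | h1
            · exact hv0K hxK
            · rcases hK x hxK v0 hv0K h1.symm with h2 | h2
              · exact hcon h2
              · rcases h2 with rfl | h2
                · exact hcon (Or.inr h1)
                · rcases hvv.2.1 w h2.symm with h3 | h3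
                  · exact hcc (Or.inl h3.symm)
                  · exact hcc (Or.inr h3.symm)
          · -- `v` and `v0` are not adjacent, so that the vertex group is infinite cyclic
            right
            right
            rcases hvv.1.2 with h1 | h1 | h1
            · exfalso
              rcases hK v hvK v0 hv0K h1 with h2 | h2
              · exact hcc h2
              · rcases h2 with rfl | h2
                · exact hcc (Or.inr h1.symm)
                · rcases hvv.2.1 w h2.symm with h3 | h3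
                  · exact hcc (Or.inl h3.symm)
                  · exact hcc (Or.inr h3.symm)
            · exact absurd (h1 ▸ hvK) hv0K
            · exact h1
      have key2 : ∀ v, cl Γ A v = q → ∀ y ∈ A v, α y ∈ Aq Γ A q ⊔ Lq Γ A r (rq r q) ∧
          α⁻¹ y ∈ Aq Γ A q ⊔ Lq Γ A r (rq r q) := by
        intro v hv y hy
        subst hv
        have h0 : y ∈ Aq Γ A (cl Γ A v) ⊔ Lq Γ A r (rq r (cl Γ A v)) :=
          Subgroup.mem_sup_left (A_le_Aq _ hy)
        by_cases hvK : v ∈ K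
        · rcases key v rfl hvK with h1 | h1
          · have h2 := h1 y hy
            constructor
            · rw [h v hvK y hy, ← h2, mul_inv_cancel_right]
              exact h0
            · rw [hi v hvK y hy, mul_assoc, h2, inv_mul_cancel_left]
              exact h0
          · have h2 : c ∈ Aq Γ A (cl Γ A v) ⊔ Lq Γ A r (rq r (cl Γ A v)) := by
              rw [rq_cl hr]
              exact up_le hr h1 hc
            constructor
            · rw [h v hvK y hy]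
              exact mul_mem (mul_mem h2 h0) (inv_mem h2)
            · rw [hi v hvK y hy]
              exact mul_mem (mul_mem (inv_mem h2) h0) h2
        · rw [h' v hvK y hy, hi' v hvK y hy]
          exact ⟨h0, h0⟩
      refine ⟨1, ?_, ?_⟩
      · intro v hv y hy
        rw [one_mul, inv_one, mul_one]
        exact (key2 v hv y hy).1
      · intro v hv y hy
        rw [inv_one, one_mul, mul_one]
        exact (key2 v hv y hy).2

end gp

end Pool.Agent.W5h2.RG
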