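import Pool.Agent.W5h2.RG.Ker

/-!
# Extensions by graph products with a filtration of the vertices
-/

set_option autoImplicit false

namespace Pool.Agent.W5h2.RG

open Pool.Agent.Y110.FJ
open Pool.Agent.R941.FJ (C_equiv C_le)
open Pool.Agent.R684.FP (FbC free_cyc)
open Pool.Agent.W5h2.GP

variable {C : ∀ (G : Type) [Group G], Prop}

section quot

variable {G I : Type} [Group G] {Λ : SimpleGraph I} {N : Subgroup G} {A : I → Subgroup G}

/-- **the quotient of a graph product by a part of the vertices** -/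
theorem quot_gp (hA : IsGraphProd Λ N A) (S : Set I) {H : Type} [Group H] (π : G →* H)
    (hπ : π.ker = Oth N A S) :
    IsGraphProd (Λ.induce S) (N.map π) (fun i : S => (A i).map π) := by
  refine ⟨?_, ?_, ?_⟩
  · apply le_antisymm
    · exact iSup_le fun i => Subgroup.map_mono (hA.le i)
    · conv_lhs => rw [← hA.sup, Subgroup.map_iSup]
      refine iSup_le fun i => ?_
      by_cases hi : i ∈ S
      · exact le_iSup (fun i : S => (A i).map π) ⟨i, hi⟩
      · rintro _ ⟨x, hx, rfl⟩
        have h1 : x ∈ π.ker := by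
          rw [hπ]
          exact mem_Oth' hi hx
        have h2 : π x = 1 := h1
        rw [h2]
        exact one_mem _
  · rintro i j hij _ ⟨x, hx, rfl⟩ _ ⟨y, hy, rfl⟩
    rw [← map_mul, ← map_mul, hA.comm i j hij x hx y hy]
  · intro K _ f hf
    classical
    obtain ⟨φ, hφ⟩ := hA.univ K (fun i => if hi : i ∈ S then
        (f ⟨i, hi⟩).comp (π.subgroupMap (A i)) else 1) (by
      intro i j hij x y
      by_cases hi : i ∈ S
      · by_cases hj : j ∈ S
        · rw [dif_pos hi, dif_pos hj]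
          exact hf ⟨i, hi⟩ ⟨j, hj⟩ hij _ _
        · rw [dif_neg hj]
          simp
      · rw [dif_neg hi]
        simp)
    have hker : (π.subgroupMap N).ker ≤ φ.ker := by
      rintro ⟨x, hxN⟩ hx
      have h1 : π x = 1 := congrArg Subtype.val (show π.subgroupMap N ⟨x, hxN⟩ = 1 from hx)
      have h2 : x ∈ Oth N A S := by
        rw [← hπ]
        exact h1
      refine hom_Oth φ ?_ hA.le h2 hxN
      intro i hi y hy hyN
      have := hφ i ⟨y, hy⟩ hyN
      rw [dif_neg hi] at this
      exact this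
    refine ⟨(π.subgroupMap N).liftOfSurjective (π.subgroupMap_surjective N) ⟨φ, hker⟩, ?_⟩
    rintro i ⟨_, x, hx, rfl⟩ hxN
    have h1 : (⟨π x, hxN⟩ : N.map π) = π.subgroupMap N ⟨x, hA.le i hx⟩ := rfl
    show (π.subgroupMap N).liftOfSurjective (π.subgroupMap_surjective N) ⟨φ, hker⟩ ⟨π x, hxN⟩ = _
    rw [h1, MonoidHom.liftOfRightInverse_comp_apply]
    have := hφ i ⟨x, hx⟩ (hA.le i hx)
    rw [dif_pos i.2] at this
    exact this

end quot

section filt

/-- the normal closure in `N` of the vertex groups `A j` with `r j < k` -/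
def Low {G I : Type} [Group G] (N : Subgroup G) (A : I → Subgroup G) (r : I → ℕ) (k : ℕ) :
    Subgroup G := Oth N A {j | k ≤ r j}

theorem Low_zero {G I : Type} [Group G] (N : Subgroup G) (A : I → Subgroup G) (r : I → ℕ) :
    Low N A r 0 = ⊥ := by
  rw [Low, Oth, eq_bot_iff, Subgroup.closure_le]
  rintro _ ⟨j, hj, _⟩
  exact absurd (Nat.zero_le _) hj

theorem Low_map {G I : Type} [Group G] (N : Subgroup G) (A : I → Subgroup G) (r : I → ℕ)
    {H : Type} [Group H] (π : G →* H) (hπ : π.ker = Oth N A {j | 1 ≤ r j}) (k : ℕ) :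
    Low (N.map π) (fun i : {j | 1 ≤ r j} => (A i).map π) (fun i => r i - 1) k =
      (Low N A r (k + 1)).map π := by
  apply le_antisymm
  · rw [Low, Oth, Subgroup.closure_le]
    rintro _ ⟨j, hj, _, ⟨m, hm, rfl⟩, _, ⟨b, hb, rfl⟩, rfl⟩
    refine ⟨m * b * m⁻¹, mem_Oth (j := (j : I)) ?_ hm hb, ?_⟩
    · intro h
      apply hj
      have h1 : k + 1 ≤ r j := h
      show k ≤ r j - 1
      omega
    · rw [map_mul, map_mul, map_inv]
  · rw [Subgroup.map_le_iff_le_comap, Low, Oth, Subgroup.closure_le]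
    rintro _ ⟨j, hj, m, hm, b, hb, rfl⟩
    rw [SetLike.mem_coe, Subgroup.mem_comap, map_mul, map_mul, map_inv]
    by_cases h1 : j ∈ {j | 1 ≤ r j}
    · refine mem_Oth (j := (⟨j, h1⟩ : {j | 1 ≤ r j})) ?_ ⟨m, hm, rfl⟩ ⟨b, hb, rfl⟩
      intro h
      apply hj
      have h2 : k ≤ r j - 1 := h
      have h3 : 1 ≤ r j := h1
      show k + 1 ≤ r j
      omega
    · have h2 : b ∈ π.ker := by
        rw [hπ]
        exact mem_Oth' h1 hb
      have h3 : π b = 1 := h2
      rw [h3, mul_one, mul_inv_cancel]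
      exact one_mem _

theorem le_Low {G I : Type} [Group G] (N : Subgroup G) (A : I → Subgroup G) (r : I → ℕ) (k : ℕ) :
    Oth N A {j | 1 ≤ r j} ≤ Low N A r (k + 1) := by
  refine Oth_anti ?_
  intro j hj
  have : k + 1 ≤ r j := hj
  show 1 ≤ r j
  omega

/-- **extensions by graph products, filtered version** -/
theorem main_filt (hC : ClosedE C) (hF : FbC C) (n : ℕ) : ∀ (G I : Type) [Group G]
    (N : Subgroup G) [N.Normal] (_ : C (G ⧸ N)) (Λ : SimpleGraph I) (A : I → Subgroup G)
    (_ : IsGraphProd Λ N A) (r : I → ℕ) (_ : ∀ i, r i < n)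
    (_ : ∀ (i : I) (g : G), ∃ j, r j = r i ∧ ∃ m ∈ N, ∀ x, x ∈ A i ⊔ Low N A r (r i) ↔
      m * (g * x * g⁻¹) * m⁻¹ ∈ A j ⊔ Low N A r (r i))
    (_ : ∀ (i : I) (g : G), (∀ x, x ∈ A i ⊔ Low N A r (r i) ↔
      g * x * g⁻¹ ∈ A i ⊔ Low N A r (r i)) → ∀ (H : Type) [Group H] (π : G →* H),
      π.ker = Low N A r (r i) → C ↥((A i ⊔ Subgroup.zpowers g).map π)), C G := by
  induction n with
  | zero =>
    intro G I _ N _ hQ Λ A hA r hr _ _
    have h1 : N = ⊥ := by
      rw [← hA.sup, eq_bot_iff]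
      exact iSup_le fun i => absurd (hr i) (Nat.not_lt_zero _)
    subst h1
    exact C_equiv hC.base (QuotientGroup.quotientBot).symm hQ
  | succ n ih =>
    intro G I _ N _ hQ Λ A hA r hr hperm hcyc
    obtain ⟨S, hS⟩ : ∃ S : Set I, S = {j | 1 ≤ r j} := ⟨_, rfl⟩
    have hnS : ∀ {i}, i ∉ S → r i = 0 := by
      intro i hi
      rw [hS] at hi
      have : ¬ 1 ≤ r i := hi
      omega
    have hSn : ∀ {i}, r i = 0 → i ∉ S := by
      intro i hi
      rw [hS]
      intro h
      have : 1 ≤ r i := h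
      omega
    have hM : (Oth N A S).Normal := by
      refine ⟨fun x hx g => ?_⟩
      have h1 : Oth N A S ≤ (Oth N A S).comap (MulAut.conj g).toMonoidHom := by
        conv_lhs => rw [Oth]
        rw [Subgroup.closure_le]
        rintro _ ⟨j, hj, m, hm, b, hb, rfl⟩
        obtain ⟨j', hj', m', hm', h⟩ := hperm j g
        rw [hnS hj, Low_zero, sup_bot_eq, sup_bot_eq] at h
        have hb' := (h b).1 hb
        show g * (m * b * m⁻¹) * g⁻¹ ∈ Oth N A S
        have h2 : g * (m * b * m⁻¹) * g⁻¹ = (g * m * g⁻¹ * m'⁻¹) *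
            (m' * (g * b * g⁻¹) * m'⁻¹) * (g * m * g⁻¹ * m'⁻¹)⁻¹ := by group
        rw [h2]
        refine mem_Oth (j := j') (hSn ?_) ?_ hb'
        · rw [hj']
          exact hnS hj
        · exact mul_mem (Subgroup.Normal.conj_mem inferInstance m hm g) (inv_mem hm')
      exact h1 hx
    have hker : (QuotientGroup.mk' (Oth N A S)).ker = Oth N A S := QuotientGroup.ker_mk' _
    have hNn : (N.map (QuotientGroup.mk' (Oth N A S))).Normal :=
      Subgroup.Normal.map inferInstance _ (QuotientGroup.mk'_surjective _)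
    have hle : Oth N A S ≤ N := Oth_le hA.le S
    have hmem : ∀ (i : I) (k : ℕ) (x : G), QuotientGroup.mk' (Oth N A S) x ∈
        (A i).map (QuotientGroup.mk' (Oth N A S)) ⊔
          (Low N A r (k + 1)).map (QuotientGroup.mk' (Oth N A S)) ↔ x ∈ A i ⊔ Low N A r (k + 1) := by
      intro i k x
      rw [← Subgroup.map_sup]
      have h1 : (QuotientGroup.mk' (Oth N A S)).ker ≤ A i ⊔ Low N A r (k + 1) := by
        rw [hker]
        refine le_trans ?_ le_sup_right
        rw [hS]
        exact le_Low N A r k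
      conv_rhs => rw [← Subgroup.comap_map_eq_self h1]
      rfl
    have hlow : ∀ k, Low (N.map (QuotientGroup.mk' (Oth N A S)))
        (fun i : S => (A i).map (QuotientGroup.mk' (Oth N A S))) (fun i => r i - 1) k =
        (Low N A r (k + 1)).map (QuotientGroup.mk' (Oth N A S)) := by
      subst hS
      exact fun k => Low_map N A r _ hker k
    have hCM : C (G ⧸ Oth N A S) := by
      refine ih (G ⧸ Oth N A S) S (N.map (QuotientGroup.mk' (Oth N A S)))
        (C_equiv hC.base (QuotientGroup.quotientQuotientEquivQuotient (Oth N A S) N hle) hQ)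
        (Λ.induce S) (fun i : S => (A i).map (QuotientGroup.mk' (Oth N A S)))
        (quot_gp hA S _ hker) (fun i => r i - 1) ?_ ?_ ?_
      · rintro ⟨i, hi⟩
        have h1 := hr i
        have h2 : 1 ≤ r i := by rwa [hS] at hi
        show r i - 1 < n
        omega
      · rintro ⟨i, hi⟩ g'
        obtain ⟨g, rfl⟩ := QuotientGroup.mk'_surjective _ g'
        have h2 : 1 ≤ r i := by rwa [hS] at hi
        have h3 : r i - 1 + 1 = r i := by omega
        obtain ⟨j, hj, m, hm, h⟩ := hperm i g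
        refine ⟨⟨j, by rw [hS]; show 1 ≤ r j; omega⟩, ?_, QuotientGroup.mk' (Oth N A S) m,
          ⟨m, hm, rfl⟩, ?_⟩
        · show r j - 1 = r i - 1
          rw [hj]
        · intro x'
          obtain ⟨x, rfl⟩ := QuotientGroup.mk'_surjective _ x'
          rw [hlow]
          show QuotientGroup.mk' (Oth N A S) x ∈ (A i).map (QuotientGroup.mk' (Oth N A S)) ⊔ _ ↔
            _ ∈ (A j).map (QuotientGroup.mk' (Oth N A S)) ⊔ _
          have h4 : QuotientGroup.mk' (Oth N A S) m * (QuotientGroup.mk' (Oth N A S) g *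
              QuotientGroup.mk' (Oth N A S) x * (QuotientGroup.mk' (Oth N A S) g)⁻¹) *
              (QuotientGroup.mk' (Oth N A S) m)⁻¹ =
              QuotientGroup.mk' (Oth N A S) (m * (g * x * g⁻¹) * m⁻¹) := by
            simp only [map_mul, map_inv]
          rw [h4, hmem, hmem, h3]
          exact h x
      · rintro ⟨i, hi⟩ g' hg H _ π' hπ'
        obtain ⟨g, rfl⟩ := QuotientGroup.mk'_surjective _ g'
        have h2 : 1 ≤ r i := by rwa [hS] at hi
        have h3 : r i - 1 + 1 = r i := by omega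
        rw [hlow] at hπ' hg
        change π'.ker = (Low N A r (r i - 1 + 1)).map (QuotientGroup.mk' (Oth N A S)) at hπ'
        change ∀ x, x ∈ (A i).map (QuotientGroup.mk' (Oth N A S)) ⊔
          (Low N A r (r i - 1 + 1)).map (QuotientGroup.mk' (Oth N A S)) ↔ _ ∈
          (A i).map (QuotientGroup.mk' (Oth N A S)) ⊔
          (Low N A r (r i - 1 + 1)).map (QuotientGroup.mk' (Oth N A S)) at hg
        have h5 := hcyc i g (by
          intro x
          have h4 := hg (QuotientGroup.mk' (Oth N A S) x)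
          have h6 : QuotientGroup.mk' (Oth N A S) g *
              QuotientGroup.mk' (Oth N A S) x * (QuotientGroup.mk' (Oth N A S) g)⁻¹ =
              QuotientGroup.mk' (Oth N A S) (g * x * g⁻¹) := by
            simp only [map_mul, map_inv]
          rw [h6, hmem, hmem, h3] at h4
          exact h4) H (π'.comp (QuotientGroup.mk' (Oth N A S))) (by
          rw [← MonoidHom.comap_ker, hπ', h3, Subgroup.comap_map_eq_self]
          rw [hker, hS, ← h3]
          exact le_Low N A r _)
        rw [← Subgroup.map_map, Subgroup.map_sup, MonoidHom.map_zpowers] at h5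
        exact h5
    refine main_graph hC hF (ker_gp hA S) ?_ ?_ hCM
    · rintro ⟨⟨i, B⟩, hi, h, hh, hB⟩ g
      change B = cj h (A i) at hB
      subst hB
      have hi0 := hnS (show i ∉ S from hi)
      obtain ⟨j, hj, m, hm, hx⟩ := hperm i (g * h)
      rw [hi0, Low_zero, sup_bot_eq, sup_bot_eq] at hx
      obtain ⟨m1, hm1, h1, hh1, hmm⟩ := dec_N hA S (inv_mem hm)
      refine ⟨⟨(j, cj h1 (A j)), hSn (hj.trans hi0), h1, hh1, rfl⟩, m1⁻¹, inv_mem hm1, fun x => ?_⟩
      show x ∈ cj h (A i) ↔ _ ∈ cj h1 (A j)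
      rw [mem_cj, mem_cj, hx]
      have h2 : m = h1⁻¹ * m1⁻¹ := by rw [← mul_inv_rev, ← hmm, inv_inv]
      rw [h2]
      have h3 : h1⁻¹ * m1⁻¹ * (g * h * (h⁻¹ * x * h) * (g * h)⁻¹) * (h1⁻¹ * m1⁻¹)⁻¹ =
          h1⁻¹ * (m1⁻¹ * (g * x * g⁻¹) * m1⁻¹⁻¹) * h1 := by group
      rw [h3]
    · rintro ⟨⟨i, B⟩, hi, h, hh, hB⟩ g hg
      change B = cj h (A i) at hB
      subst hB
      change ∀ x, x ∈ cj h (A i) ↔ g * x * g⁻¹ ∈ cj h (A i) at hg
      have hi0 := hnS (show i ∉ S from hi)
      have h1 := hcyc i (h⁻¹ * g * h) (by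
        intro x
        rw [hi0, Low_zero, sup_bot_eq]
        have h2 := hg (h * x * h⁻¹)
        rw [mem_cj, mem_cj] at h2
        have h3 : h⁻¹ * (h * x * h⁻¹) * h = x := by group
        have h4 : h⁻¹ * (g * (h * x * h⁻¹) * g⁻¹) * h = h⁻¹ * g * h * x * (h⁻¹ * g * h)⁻¹ := by group
        rw [h3, h4] at h2
        exact h2) G (MonoidHom.id G) (by
        rw [hi0, Low_zero]
        exact (MonoidHom.ker_eq_bot_iff _).2 Function.injective_id)
      rw [Subgroup.map_id] at h1
      have h2 : (cj h (A i) ⊔ Subgroup.zpowers g) =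
          (A i ⊔ Subgroup.zpowers (h⁻¹ * g * h)).map (MulAut.conj h).toMonoidHom := by
        rw [Subgroup.map_sup, MonoidHom.map_zpowers]
        congr 2
        show g = h * (h⁻¹ * g * h) * h⁻¹
        group
      show C ↥(cj h (A i) ⊔ Subgroup.zpowers g)
      rw [h2]
      exact C_equiv hC.base (Subgroup.equivMapOfInjective _ _ (MulAut.conj h).injective).symm h1

end filt

end Pool.Agent.W5h2.RG
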