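import Pool.Agent.W5h2.GP.Graph

/-!
# Kernels of retractions of graph products are graph products
-/

set_option autoImplicit false

namespace Pool.Agent.W5h2.RG

open Pool.Agent.Y110.FJ
open Pool.Agent.R941.FJ (C_equiv C_le)
open Pool.Agent.R684.FP (FbC free_cyc)
open Pool.Agent.W5h2.GP

section cj

variable {G : Type} [Group G]

/-- the conjugate of a subgroup -/
def cj (h : G) (B : Subgroup G) : Subgroup G := B.map (MulAut.conj h).toMonoidHom

theorem mem_cj {h x : G} {B : Subgroup G} : x ∈ cj h B ↔ h⁻¹ * x * h ∈ B := by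
  constructor
  · rintro ⟨b, hb, rfl⟩
    show h⁻¹ * (h * b * h⁻¹) * h ∈ B
    have : h⁻¹ * (h * b * h⁻¹) * h = b := by group
    rwa [this]
  · intro hx
    refine ⟨_, hx, ?_⟩
    show h * (h⁻¹ * x * h) * h⁻¹ = x
    group

theorem cj_cj (g h : G) (B : Subgroup G) : cj g (cj h B) = cj (g * h) B := by
  ext x
  rw [mem_cj, mem_cj, mem_cj]
  have : h⁻¹ * (g⁻¹ * x * g) * h = (g * h)⁻¹ * x * (g * h) := by group
  rw [this]

theorem mem_cj_conj {h x : G} {B : Subgroup G} (hx : x ∈ B) : h * x * h⁻¹ ∈ cj h B :=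
  ⟨x, hx, rfl⟩

end cj

section ker

variable {G I : Type} [Group G] {Λ : SimpleGraph I} {N : Subgroup G} {A : I → Subgroup G}

/-- the conjugates of the vertex groups outside of `S` by the elements of `Gen A S` -/
def Ix (A : I → Subgroup G) (S : Set I) : Type :=
  {p : I × Subgroup G // p.1 ∉ S ∧ ∃ h ∈ Gen A S, p.2 = cj h (A p.1)}

/-- the subgroups -/
def Ax {A : I → Subgroup G} {S : Set I} (p : Ix A S) : Subgroup G := p.1.2

/-- the graph -/
def Lx (Λ : SimpleGraph I) (A : I → Subgroup G) (S : Set I) : SimpleGraph (Ix A S) where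
  Adj p q := Λ.Adj p.1.1 q.1.1 ∧ ∃ h ∈ Gen A S, p.1.2 = cj h (A p.1.1) ∧ q.1.2 = cj h (A q.1.1)
  symm := ⟨by
    rintro p q ⟨h1, h, hh, h2, h3⟩
    exact ⟨h1.symm, h, hh, h3, h2⟩⟩
  loopless := ⟨fun p h => Λ.irrefl h.1⟩

/-- the shift action on functions -/
def shR (H K : Type) [Group H] [Group K] : H →* MulAut (H → K) where
  toFun h0 :=
    { toFun := fun F h => F (h * h0)
      invFun := fun F h => F (h * h0⁻¹)
      left_inv := fun F => by
        funext h
        show F (h * h0⁻¹ * h0) = F h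
        rw [inv_mul_cancel_right]
      right_inv := fun F => by
        funext h
        show F (h * h0 * h0⁻¹) = F h
        rw [mul_inv_cancel_right]
      map_mul' := fun _ _ => rfl }
  map_one' := by
    ext F h
    show F (h * 1) = F h
    rw [mul_one]
  map_mul' a b := by
    ext F h
    show F (h * (a * b)) = F (h * a * b)
    rw [mul_assoc]

theorem shR_apply {H K : Type} [Group H] [Group K] (h0 : H) (F : H → K) (h : H) :
    shR H K h0 F h = F (h * h0) := rfl

/-- the decomposition of an element of `N` -/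
theorem dec_N (hA : IsGraphProd Λ N A) (S : Set I) {x : G} (hx : x ∈ N) :
    ∃ m ∈ Oth N A S, ∃ h ∈ Gen A S, x = m * h := by
  have h1 : x ∈ Gen A Set.univ := by
    have h0 : N ≤ Gen A Set.univ := by
      conv_lhs => rw [← hA.sup]
      exact iSup_le fun i => le_Gen (Set.mem_univ i)
    exact h0 hx
  obtain ⟨b, hb, l, hl, rfl⟩ := dec_rel (N := N) hA.le Set.univ S h1
  rw [Set.inter_univ] at hb
  refine ⟨b * l * b⁻¹, Oth_conj S (Gen_le hA.le S hb) hl, b, hb, by group⟩

theorem sup_Ax (hA : IsGraphProd Λ N A) (S : Set I) : ⨆ p : Ix A S, Ax p = Oth N A S := by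
  apply le_antisymm
  · refine iSup_le ?_
    rintro ⟨⟨i, B⟩, hi, h, hh, hB⟩
    change B = cj h (A i) at hB
    subst hB
    rintro _ ⟨b, hb, rfl⟩
    exact mem_Oth hi (Gen_le hA.le S hh) hb
  · obtain ⟨W, hW⟩ : ∃ W, W = ⨆ p : Ix A S, Ax p := ⟨_, rfl⟩
    rw [← hW]
    have hcl : ∀ {i : I} (_ : i ∉ S) {h : G} (_ : h ∈ Gen A S), cj h (A i) ≤ W := by
      intro i hi h hh
      rw [hW]
      exact le_iSup (fun p : Ix A S => Ax p) ⟨(i, cj h (A i)), hi, h, hh, rfl⟩
    have hH : ∀ h ∈ Gen A S, ∀ x ∈ W, h * x * h⁻¹ ∈ W := by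
      intro h hh x hx
      have h1 : W ≤ W.comap (MulAut.conj h).toMonoidHom := by
        conv_lhs => rw [hW]
        refine iSup_le ?_
        rintro ⟨⟨i, B⟩, hi, h', hh', hB⟩
        change B = cj h' (A i) at hB
        subst hB
        rintro _ ⟨b, hb, rfl⟩
        show h * (h' * b * h'⁻¹) * h⁻¹ ∈ W
        refine hcl hi (mul_mem hh hh') ?_
        refine ⟨b, hb, ?_⟩
        show h * h' * b * (h * h')⁻¹ = h * (h' * b * h'⁻¹) * h⁻¹
        group
      exact h1 hx
    have hN : N ≤ Subgroup.normalizer (W : Set G) := by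
      conv_lhs => rw [← hA.sup]
      refine iSup_le fun i => ?_
      by_cases hi : i ∈ S
      · intro a ha
        rw [Subgroup.mem_normalizer_iff]
        intro x
        constructor
        · exact hH a (le_Gen hi ha) x
        · intro hx
          have := hH a⁻¹ (inv_mem (le_Gen hi ha)) _ hx
          have h2 : a⁻¹ * (a * x * a⁻¹) * a⁻¹⁻¹ = x := by group
          rwa [h2] at this
      · refine le_trans ?_ Subgroup.le_normalizer
        intro a ha
        refine hcl hi (one_mem _) ?_
        refine ⟨a, ha, ?_⟩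
        show 1 * a * 1⁻¹ = a
        group
    rw [Oth, Subgroup.closure_le]
    rintro _ ⟨j, hj, m, hm, b, hb, rfl⟩
    have h1 := hN hm
    rw [Subgroup.mem_normalizer_iff] at h1
    refine (h1 b).1 (hcl hj (one_mem _) ?_)
    refine ⟨b, hb, ?_⟩
    show 1 * b * 1⁻¹ = b
    group

/-- **the kernel of the retraction onto the part `S` of a graph product is a graph product** -/
theorem ker_gp (hA : IsGraphProd Λ N A) (S : Set I) :
    IsGraphProd (Lx Λ A S) (Oth N A S) (Ax (A := A) (S := S)) := by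
  refine ⟨sup_Ax hA S, ?_, ?_⟩
  · rintro ⟨⟨i, B⟩, hp⟩ ⟨⟨j, B'⟩, hq⟩ ⟨hij, h, hh, h1, h2⟩ x hx y hy
    change B = cj h (A i) at h1
    change B' = cj h (A j) at h2
    change x ∈ B at hx
    change y ∈ B' at hy
    rw [h1] at hx
    rw [h2] at hy
    obtain ⟨a, ha, rfl⟩ := hx
    obtain ⟨b, hb, rfl⟩ := hy
    show h * a * h⁻¹ * (h * b * h⁻¹) = h * b * h⁻¹ * (h * a * h⁻¹)
    have := hA.comm i j hij a ha b hb
    have h3 : h * a * h⁻¹ * (h * b * h⁻¹) = h * (a * b) * h⁻¹ := by group
    rw [h3, this]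
    group
  · intro K _ f hf
    -- transport of values
    have hval : ∀ {i : I} {B B' : Subgroup G} {z z' : G} (hB : i ∉ S ∧ ∃ h ∈ Gen A S, B = cj h (A i))
        (hB' : i ∉ S ∧ ∃ h ∈ Gen A S, B' = cj h (A i)) (hz : z ∈ B) (hz' : z' ∈ B'), B = B' → z = z' →
        f ⟨(i, B), hB⟩ ⟨z, hz⟩ = f ⟨(i, B'), hB'⟩ ⟨z', hz'⟩ := by
      intro i B B' z z' hB hB' hz hz' h1 h2
      subst h1
      subst h2
      rfl
    -- the functions
    obtain ⟨F, hF⟩ : ∃ F : ∀ i, i ∉ S → (A i →* (↥(Gen A S) → K)), ∀ i (hi : i ∉ S) (x : A i)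
        (h : ↥(Gen A S)), F i hi x h = f ⟨(i, cj h (A i)), hi, h, h.2, rfl⟩
          ⟨h * x * (h : G)⁻¹, mem_cj_conj x.2⟩ := by
      refine ⟨fun i hi =>
        { toFun := fun x h => f ⟨(i, cj h (A i)), hi, h, h.2, rfl⟩
            ⟨h * x * (h : G)⁻¹, mem_cj_conj x.2⟩
          map_one' := ?_
          map_mul' := ?_ }, fun i hi x h => rfl⟩
      · funext h
        refine Eq.trans ?_ (map_one (f ⟨(i, cj h (A i)), hi, h, h.2, rfl⟩))
        congr 1
        apply Subtype.ext
        show (h : G) * 1 * (h : G)⁻¹ = 1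
        group
      · intro x y
        funext h
        refine Eq.trans ?_ (map_mul (f ⟨(i, cj h (A i)), hi, h, h.2, rfl⟩) _ _)
        congr 1
        apply Subtype.ext
        show (h : G) * (x * y) * (h : G)⁻¹ = (h : G) * x * (h : G)⁻¹ * (h * y * (h : G)⁻¹)
        group
    classical
    obtain ⟨Φ, hΦ⟩ := hA.univ ((↥(Gen A S) → K) ⋊[shR ↥(Gen A S) K] ↥(Gen A S))
      (fun i => if hi : i ∈ S then
          (SemidirectProduct.inr).comp (Subgroup.inclusion (le_Gen hi))
        else (SemidirectProduct.inl).comp (F i hi)) (by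
      intro i j hij x y
      have hmix : ∀ (i j : I) (_ : Λ.Adj i j) (hi : i ∉ S) (hj : j ∈ S) (x : A i) (y : A j),
          (SemidirectProduct.inl (φ := shR ↥(Gen A S) K) (F i hi x)) *
            SemidirectProduct.inr (Subgroup.inclusion (le_Gen hj) y) =
          SemidirectProduct.inr (Subgroup.inclusion (le_Gen hj) y) *
            SemidirectProduct.inl (F i hi x) := by
        intro i j hij hi hj x y
        have h1 : shR ↥(Gen A S) K (Subgroup.inclusion (le_Gen hj) y) (F i hi x) = F i hi x := by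
          funext h
          rw [shR_apply, hF, hF]
          have hc := hA.comm i j hij
          refine hval _ _ _ _ ?_ ?_
          · show cj ((h : G) * y) (A i) = cj (h : G) (A i)
            rw [← cj_cj]
            congr 1
            ext z
            rw [mem_cj]
            constructor
            · intro hz
              have h2 := hc _ hz y y.2
              have h3 : z = (y : G) * ((y : G)⁻¹ * z * y) * (y : G)⁻¹ := by group
              rw [h3, ← h2, mul_inv_cancel_right]
              exact hz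
            · intro hz
              have h2 := hc _ hz y y.2
              rw [mul_assoc, h2, inv_mul_cancel_left]
              exact hz
          · show ((h : G) * y) * x * ((h : G) * y)⁻¹ = (h : G) * x * (h : G)⁻¹
            have h2 := hc x x.2 y y.2
            rw [mul_inv_rev, mul_assoc (h : G), ← h2]
            group
        have h2 := SemidirectProduct.inl_aut (φ := shR ↥(Gen A S) K)
          (Subgroup.inclusion (le_Gen hj) y) (F i hi x)
        rw [h1] at h2
        have h3 : SemidirectProduct.inr (φ := shR ↥(Gen A S) K)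
            (Subgroup.inclusion (le_Gen hj) y)⁻¹ * SemidirectProduct.inr
            (Subgroup.inclusion (le_Gen hj) y) = 1 := by
          rw [← map_mul, inv_mul_cancel, map_one]
        calc SemidirectProduct.inl (φ := shR ↥(Gen A S) K) (F i hi x) *
              SemidirectProduct.inr (Subgroup.inclusion (le_Gen hj) y)
            = (SemidirectProduct.inr (Subgroup.inclusion (le_Gen hj) y) *
              SemidirectProduct.inl (F i hi x) *
              SemidirectProduct.inr (Subgroup.inclusion (le_Gen hj) y)⁻¹) *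
              SemidirectProduct.inr (Subgroup.inclusion (le_Gen hj) y) := by rw [← h2]
          _ = _ := by rw [mul_assoc, h3, mul_one]
      by_cases hi : i ∈ S
      · by_cases hj : j ∈ S
        · rw [dif_pos hi, dif_pos hj]
          show SemidirectProduct.inr _ * SemidirectProduct.inr _ =
            SemidirectProduct.inr _ * SemidirectProduct.inr _
          rw [← map_mul, ← map_mul]
          congr 1
          apply Subtype.ext
          exact hA.comm i j hij x x.2 y y.2
        · rw [dif_pos hi, dif_neg hj]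
          exact (hmix j i hij.symm hj hi y x).symm
      · by_cases hj : j ∈ S
        · rw [dif_neg hi, dif_pos hj]
          exact hmix i j hij hi hj x y
        · rw [dif_neg hi, dif_neg hj]
          show SemidirectProduct.inl _ * SemidirectProduct.inl _ =
            SemidirectProduct.inl _ * SemidirectProduct.inl _
          rw [← map_mul, ← map_mul]
          congr 1
          funext h
          show F i hi x h * F j hj y h = F j hj y h * F i hi x h
          rw [hF, hF]
          exact hf _ _ ⟨hij, h, h.2, rfl, rfl⟩ _ _)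
    -- the right component
    have hR : ∀ m (hm : m ∈ Oth N A S) (hmN : m ∈ N), (Φ ⟨m, hmN⟩).right = 1 := by
      intro m hm hmN
      refine hom_Oth (SemidirectProduct.rightHom.comp Φ) ?_ hA.le hm hmN
      intro i hi x hx hxN
      show (Φ ⟨x, hxN⟩).right = 1
      have := hΦ i ⟨x, hx⟩ hxN
      rw [dif_neg hi] at this
      rw [this]
      rfl
    have hHr : ∀ h (hh : h ∈ Gen A S) (hhN : h ∈ N), Φ ⟨h, hhN⟩ = SemidirectProduct.inr ⟨h, hh⟩ := by
      intro h hh hhN
      have h2 : ∃ (hh : h ∈ Gen A S) (hhN : h ∈ N), Φ ⟨h, hhN⟩ = SemidirectProduct.inr ⟨h, hh⟩ := by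
        refine Gen_ind (p := fun h => ∃ (hh : h ∈ Gen A S) (hhN : h ∈ N),
          Φ ⟨h, hhN⟩ = SemidirectProduct.inr ⟨h, hh⟩) ?_ ?_ ?_ ?_ hh
        · intro i hi x hx
          refine ⟨le_Gen hi hx, hA.le i hx, ?_⟩
          have := hΦ i ⟨x, hx⟩ (hA.le i hx)
          rw [dif_pos hi] at this
          exact this
        · exact ⟨one_mem _, one_mem _, (map_one Φ).trans (map_one _).symm⟩
        · rintro x y ⟨hx, hxN, h1⟩ ⟨hy, hyN, h2⟩
          refine ⟨mul_mem hx hy, mul_mem hxN hyN, ?_⟩
          have h3 : (⟨x * y, mul_mem hxN hyN⟩ : N) = ⟨x, hxN⟩ * ⟨y, hyN⟩ := rfl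
          rw [h3, map_mul, h1, h2, ← map_mul]
          rfl
        · rintro x ⟨hx, hxN, h1⟩
          refine ⟨inv_mem hx, inv_mem hxN, ?_⟩
          have h3 : (⟨x⁻¹, inv_mem hxN⟩ : N) = ⟨x, hxN⟩⁻¹ := rfl
          rw [h3, map_inv, h1, ← map_inv]
          rfl
      obtain ⟨_, _, h3⟩ := h2
      exact h3
    have hle : Oth N A S ≤ N := Oth_le hA.le S
    refine ⟨
      { toFun := fun m => (Φ ⟨m, hle m.2⟩).left 1
        map_one' := ?_
        map_mul' := ?_ }, ?_⟩
    · show (Φ 1).left 1 = 1
      rw [map_one]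
      rfl
    · intro m m'
      have h3 : (⟨((m * m' : Oth N A S) : G), hle (m * m').2⟩ : N) = ⟨m, hle m.2⟩ * ⟨m', hle m'.2⟩ := rfl
      rw [h3, map_mul, SemidirectProduct.mul_left, hR m m.2, map_one]
      rfl
    · rintro ⟨⟨i, B⟩, hi, h, hh, hB⟩ ⟨x, hx⟩ hxM
      change B = cj h (A i) at hB
      subst hB
      obtain ⟨a, ha, rfl⟩ := hx
      show (Φ ⟨h * a * h⁻¹, hle hxM⟩).left 1 = f ⟨(i, cj h (A i)), hi, h, hh, rfl⟩ ⟨h * a * h⁻¹, _⟩
      have hhN : h ∈ N := Gen_le hA.le S hh
      have h3 : (⟨h * a * h⁻¹, hle hxM⟩ : N) = ⟨h, hhN⟩ * ⟨a, hA.le i ha⟩ * ⟨h, hhN⟩⁻¹ := rfl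
      have h4 := hΦ i ⟨a, ha⟩ (hA.le i ha)
      rw [dif_neg hi] at h4
      rw [h3, map_mul, map_mul, map_inv, hHr h hh hhN, h4, ← map_inv]
      show (SemidirectProduct.inr ⟨h, hh⟩ * SemidirectProduct.inl (F i hi ⟨a, ha⟩) *
        SemidirectProduct.inr (⟨h, hh⟩ : ↥(Gen A S))⁻¹ :
          (↥(Gen A S) → K) ⋊[shR ↥(Gen A S) K] ↥(Gen A S)).left 1 = _
      rw [← SemidirectProduct.inl_aut, SemidirectProduct.left_inl, shR_apply, hF]
      refine hval _ _ _ _ ?_ ?_
      · show cj (1 * h) (A i) = cj h (A i)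
        rw [one_mul]
      · show 1 * h * a * (1 * h)⁻¹ = h * a * h⁻¹
        rw [one_mul]

end ker

end Pool.Agent.W5h2.RG
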