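import Pool.Agent.W5h2.RG.Dom
import Pool.Agent.W5h2.GE.Mat

/-!
# Graph products of abelian groups by Farrell-Jones groups
-/

set_option autoImplicit false

namespace Pool.Agent.W5h2.RG

open Pool.Agent.Y110.FJ
open Pool.Agent.R941.FJ (C_equiv C_le)
open Pool.Agent.R684.FP (FbC free_cyc)
open Pool.Agent.W5h2.GP

variable {C : ∀ (G : Type) [Group G], Prop}

section gp

variable {V M : Type} [Group M] {Γ : SimpleGraph V} {A : V → Subgroup M} {r : V → ℕ}

theorem U_pair (hr : IsHeight Γ A r) {α : MulAut M} (h : ∀ v, ∀ x ∈ A v, α x ∈ Up Γ A v)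
    (h' : ∀ v, ∀ x ∈ A v, α⁻¹ x ∈ Up Γ A v) : Rr Γ A r α ∧ Rr Γ A r α⁻¹ :=
  ⟨kindU hr h h', kindU hr h' (by rw [inv_inv]; exact h)⟩

theorem map_inv_eq {α : MulAut M} {B B' : Subgroup M} (h : B.map α.toMonoidHom = B') :
    B'.map (α⁻¹ : MulAut M).toMonoidHom = B := by
  rw [← h, Subgroup.map_map]
  have : (α⁻¹ : MulAut M).toMonoidHom.comp α.toMonoidHom = MonoidHom.id M := by
    ext x
    exact MulAut.inv_apply_self M α x
  rw [this, Subgroup.map_id]

theorem GPGen_R (hA : ∀ v w, Γ.Adj v w → ∀ x ∈ A v, ∀ y ∈ A w, x * y = y * x)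
    (hab : ∀ v, ∀ x ∈ A v, ∀ y ∈ A v, x * y = y * x) (hr : IsHeight Γ A r) {α : MulAut M}
    (h : GPGen Γ A α) : Rr Γ A r α ∧ Rr Γ A r α⁻¹ := by
  have hinv : ∀ {x y : M}, α x = y → α⁻¹ y = x := by
    intro x y h
    rw [← h, MulAut.inv_apply_self]
  cases h with
  | perm σ hσ h =>
    have hσ' : ∀ v w, Γ.Adj (σ.symm v) (σ.symm w) ↔ Γ.Adj v w := by
      intro v w
      rw [← hσ, Equiv.apply_symm_apply, Equiv.apply_symm_apply]
    refine ⟨kindG hr hσ h, kindG hr hσ' fun v => ?_⟩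
    refine map_inv_eq ?_
    rw [h, Equiv.apply_symm_apply]
  | transvAdj v w hvw hd θ hv h =>
    have hdom : Dom Γ A v w := ⟨hd, Or.inl hvw⟩
    refine U_pair hr (fun u y hy => ?_) (fun u y hy => ?_)
    · by_cases hu : u = v
      · subst hu
        have := hv ⟨y, hy⟩
        rw [this]
        exact mul_mem (le_Up (Dom.refl _) hy) (le_Up hdom (θ ⟨y, hy⟩).2)
      · rw [h u hu y hy]
        exact le_Up (Dom.refl _) hy
    · by_cases hu : u = v
      · subst hu
        have h1 : α (y * ((θ ⟨y, hy⟩ : A w) : M)⁻¹) = y := by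
          have h2 := hv ⟨y, hy⟩
          have h3 := h w hvw.symm.ne _ (θ ⟨y, hy⟩).2
          change α y = _ at h2
          rw [map_mul, map_inv, h2, h3, mul_inv_cancel_right]
        rw [hinv h1]
        exact mul_mem (le_Up (Dom.refl _) hy) (inv_mem (le_Up hdom (θ ⟨y, hy⟩).2))
      · rw [hinv (h u hu y hy)]
        exact le_Up (Dom.refl _) hy
  | transvCycR v w hvw hd b hb hb' c hc hv h =>
    have hdom : Dom Γ A v w := ⟨hd, Or.inr (Or.inr ⟨b, hb, hb'⟩)⟩
    have hbv : b ∈ A v := by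
      rw [hb]
      exact Subgroup.mem_zpowers b
    refine U_pair hr (fun u y hy => ?_) (fun u y hy => ?_)
    · by_cases hu : u = v
      · subst hu
        rw [hb, Subgroup.mem_zpowers_iff] at hy
        obtain ⟨n, rfl⟩ := hy
        rw [map_zpow, hv]
        exact Subgroup.zpow_mem _ (mul_mem (le_Up (Dom.refl _) hbv) (le_Up hdom hc)) n
      · rw [h u hu y hy]
        exact le_Up (Dom.refl _) hy
    · by_cases hu : u = v
      · subst hu
        rw [hb, Subgroup.mem_zpowers_iff] at hy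
        obtain ⟨n, rfl⟩ := hy
        have h1 : α (b * c⁻¹) = b := by
          rw [map_mul, map_inv, hv, h w (Ne.symm hvw) c hc, mul_inv_cancel_right]
        rw [map_zpow, hinv h1]
        exact Subgroup.zpow_mem _
          (mul_mem (le_Up (Dom.refl _) hbv) (inv_mem (le_Up hdom hc))) n
      · rw [hinv (h u hu y hy)]
        exact le_Up (Dom.refl _) hy
  | transvCycL v w hvw hd b hb hb' c hc hv h =>
    have hdom : Dom Γ A v w := ⟨hd, Or.inr (Or.inr ⟨b, hb, hb'⟩)⟩
    have hbv : b ∈ A v := by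
      rw [hb]
      exact Subgroup.mem_zpowers b
    refine U_pair hr (fun u y hy => ?_) (fun u y hy => ?_)
    · by_cases hu : u = v
      · subst hu
        rw [hb, Subgroup.mem_zpowers_iff] at hy
        obtain ⟨n, rfl⟩ := hy
        rw [map_zpow, hv]
        exact Subgroup.zpow_mem _ (mul_mem (le_Up hdom hc) (le_Up (Dom.refl _) hbv)) n
      · rw [h u hu y hy]
        exact le_Up (Dom.refl _) hy
    · by_cases hu : u = v
      · subst hu
        rw [hb, Subgroup.mem_zpowers_iff] at hy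
        obtain ⟨n, rfl⟩ := hy
        have h1 : α (c⁻¹ * b) = b := by
          rw [map_mul, map_inv, hv, h w (Ne.symm hvw) c hc, inv_mul_cancel_left]
        rw [map_zpow, hinv h1]
        exact Subgroup.zpow_mem _
          (mul_mem (inv_mem (le_Up hdom hc)) (le_Up (Dom.refl _) hbv)) n
      · rw [hinv (h u hu y hy)]
        exact le_Up (Dom.refl _) hy
  | partialConj w c hc K hK h h' =>
    have hw : α c = c := by
      by_cases hwK : w ∈ K
      · rw [h w hwK c hc, mul_inv_cancel_right]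
      · exact h' w hwK c hc
    refine ⟨kindP hA hab hr hc hK h h', kindP hA hab hr (inv_mem hc) hK (fun u hu y hy => ?_)
      fun u hu y hy => hinv (h' u hu y hy)⟩
    refine hinv ?_
    rw [inv_inv, map_mul, map_mul, map_inv, hw, h u hu y hy]
    group

theorem Std_R (hA : ∀ v w, Γ.Adj v w → ∀ x ∈ A v, ∀ y ∈ A w, x * y = y * x)
    (hab : ∀ v, ∀ x ∈ A v, ∀ y ∈ A v, x * y = y * x) (hr : IsHeight Γ A r) {α : MulAut M}
    (h : α ∈ StdAut Γ A) : Rr Γ A r α ∧ Rr Γ A r α⁻¹ := by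
  unfold StdAut at h
  induction h using Subgroup.closure_induction with
  | mem α hα => exact GPGen_R hA hab hr hα
  | one => exact ⟨R_one, by rw [inv_one]; exact R_one⟩
  | mul α β _ _ h1 h2 => exact ⟨R_mul h1.1 h2.1, by rw [mul_inv_rev]; exact R_mul h2.2 h1.2⟩
  | inv α _ h1 => exact ⟨h1.2, by rw [inv_inv]; exact h1.1⟩

/-- homomorphisms of infinite cyclic subgroups -/
theorem InfCyc.hom {B : Subgroup M} {b : M} (hb : B = Subgroup.zpowers b)
    (hb' : ∀ n : ℤ, b ^ n = 1 → n = 0) (hbB : b ∈ B) {H : Type} [Group H] (t : H) :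
    ∃ f : B →* H, f ⟨b, hbB⟩ = t := by
  have hbij : Function.Bijective (zpowersHom B ⟨b, hbB⟩) := by
    constructor
    · rw [← MonoidHom.ker_eq_bot_iff, eq_bot_iff]
      intro n hn
      have h1 : (⟨b, hbB⟩ : B) ^ n.toAdd = 1 := hn
      have h2 : b ^ n.toAdd = 1 := congrArg Subtype.val h1
      exact Multiplicative.toAdd.injective (hb' _ h2)
    · rintro ⟨y, hy⟩
      have hy' := hy
      rw [hb, Subgroup.mem_zpowers_iff] at hy'
      obtain ⟨n, hn⟩ := hy'
      refine ⟨Multiplicative.ofAdd n, Subtype.ext ?_⟩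
      show b ^ n = y
      exact hn
  obtain ⟨e, he⟩ : ∃ e : Multiplicative ℤ ≃* B, ∀ n, e n = zpowersHom B ⟨b, hbB⟩ n :=
    ⟨MulEquiv.ofBijective _ hbij, fun n => rfl⟩
  refine ⟨(zpowersHom H t).comp e.symm.toMonoidHom, ?_⟩
  have h1 : e (Multiplicative.ofAdd 1) = ⟨b, hbB⟩ := by
    rw [he, zpowersHom_apply, toAdd_ofAdd, zpow_one]
  show zpowersHom H t (e.symm ⟨b, hbB⟩) = t
  rw [← h1, e.symm_apply_apply, zpowersHom_apply, toAdd_ofAdd, zpow_one]

/-- the group of an independent class is free -/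
theorem Aq_free (hM : IsGraphProd Γ (⊤ : Subgroup M) A) (q : Cls Γ A)
    (hq : ∀ v w, cl Γ A v = q → cl Γ A w = q → ¬ Γ.Adj v w)
    (hq' : ∀ v, cl Γ A v = q → InfCyc (A v)) : IsFreeGroup (Aq Γ A q) := by
  classical
  obtain ⟨b, hb⟩ : ∃ b : {v // cl Γ A v = q} → M, ∀ v : {v // cl Γ A v = q},
      A v.1 = Subgroup.zpowers (b v) ∧ ∀ n : ℤ, b v ^ n = 1 → n = 0 :=
    ⟨fun v => Classical.choose (hq' v v.2), fun v => Classical.choose_spec (hq' v v.2)⟩
  have hbm : ∀ v : {v // cl Γ A v = q}, b v ∈ A v := by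
    intro v
    have h1 := Subgroup.mem_zpowers (b v)
    rwa [← (hb v).1] at h1
  obtain ⟨f, hf⟩ : ∃ f : ∀ v : {v // cl Γ A v = q}, A v →* FreeGroup {v // cl Γ A v = q},
      ∀ v, f v ⟨b v, hbm v⟩ = FreeGroup.of v :=
    ⟨fun v => Classical.choose (InfCyc.hom (hb v).1 (hb v).2 (hbm v) (FreeGroup.of v)),
      fun v => Classical.choose_spec (InfCyc.hom (hb v).1 (hb v).2 (hbm v) (FreeGroup.of v))⟩
  obtain ⟨φ, hφ⟩ := hM.univ (FreeGroup {v // cl Γ A v = q})
    (fun v => if h : cl Γ A v = q then f ⟨v, h⟩ else 1) (by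
    intro v w hvw x y
    by_cases hv : cl Γ A v = q
    · by_cases hw : cl Γ A w = q
      · exact absurd hvw (hq v w hv hw)
      · rw [dif_neg hw, MonoidHom.one_apply, mul_one, one_mul]
    · rw [dif_neg hv, MonoidHom.one_apply, mul_one, one_mul])
  have ha : ∀ x : {v // cl Γ A v = q}, b x ∈ Aq Γ A q := by
    intro x
    exact le_Gen (S := {v | cl Γ A v = q}) x.2 (hbm x)
  obtain ⟨ψ, hψ⟩ : ∃ ψ : FreeGroup {v // cl Γ A v = q} →* Aq Γ A q,
      ∀ x, ψ (FreeGroup.of x) = ⟨b x, ha x⟩ :=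
    ⟨FreeGroup.lift fun x => ⟨b x, ha x⟩, fun x => FreeGroup.lift_apply_of⟩
  have hid : ∀ x, φ ⟨(ψ x : M), Subgroup.mem_top _⟩ = x := by
    intro x
    have h0 : ((φ.comp (Subgroup.topEquiv (G := M)).symm.toMonoidHom).comp
        ((Aq Γ A q).subtype.comp ψ)) = MonoidHom.id _ := by
      refine FreeGroup.ext_hom _ _ fun x => ?_
      show φ ⟨(ψ (FreeGroup.of x) : M), Subgroup.mem_top _⟩ = FreeGroup.of x
      have h1 : (⟨(ψ (FreeGroup.of x) : M), Subgroup.mem_top _⟩ : (⊤ : Subgroup M)) =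
          ⟨b x, Subgroup.mem_top _⟩ := by
        rw [hψ]
      have h2 := hφ x ⟨b x, hbm x⟩ (Subgroup.mem_top _)
      rw [dif_pos x.2] at h2
      rw [h1, h2]
      exact hf x
    exact DFunLike.congr_fun h0 x
  have hinj : Function.Injective ψ := by
    intro x y hxy
    rw [← hid x, ← hid y]
    congr 2
    rw [hxy]
  have hsurj : Function.Surjective ψ := by
    rintro ⟨y, hy⟩
    have h1 : Aq Γ A q ≤ ((Aq Γ A q).subtype.comp ψ).range := by
      refine Aq_le fun v hv => ?_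
      rw [(hb ⟨v, hv⟩).1, Subgroup.zpowers_le]
      refine ⟨FreeGroup.of ⟨v, hv⟩, ?_⟩
      show (ψ (FreeGroup.of ⟨v, hv⟩) : M) = b ⟨v, hv⟩
      rw [hψ]
    obtain ⟨x, hx⟩ := h1 hy
    exact ⟨x, Subtype.ext hx⟩
  exact IsFreeGroup.ofMulEquiv (MulEquiv.ofBijective ψ ⟨hinj, hsurj⟩)

/-- commuting families generate commuting subgroups -/
theorem Gen_comm {S T : Set V} (h : ∀ v ∈ S, ∀ w ∈ T, ∀ x ∈ A v, ∀ y ∈ A w, x * y = y * x)
    {x y : M} (hx : x ∈ Gen A S) (hy : y ∈ Gen A T) : x * y = y * x := by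
  have h1 : Gen A S ≤ Subgroup.centralizer (Gen A T : Set M) := by
    refine iSup₂_le fun v hv x hx => ?_
    rw [Subgroup.mem_centralizer_iff]
    intro z hz
    have h2 : Gen A T ≤ Subgroup.centralizer ({x} : Set M) := by
      refine iSup₂_le fun w hw y hy => ?_
      rw [Subgroup.mem_centralizer_iff]
      rintro _ rfl
      exact h v hv w hw _ hx y hy
    have h3 := h2 hz
    rw [Subgroup.mem_centralizer_iff] at h3
    exact (h3 x rfl).symm
  have h2 := h1 hx
  rw [Subgroup.mem_centralizer_iff] at h2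
  exact (h2 y hy).symm

/-- the group of a clique is abelian -/
theorem Aq_comm (hA : ∀ v w, Γ.Adj v w → ∀ x ∈ A v, ∀ y ∈ A w, x * y = y * x)
    (hab : ∀ v, ∀ x ∈ A v, ∀ y ∈ A v, x * y = y * x) (q : Cls Γ A)
    (hq : ∀ v w, cl Γ A v = q → cl Γ A w = q → v ≠ w → Γ.Adj v w) {x y : M} (hx : x ∈ Aq Γ A q)
    (hy : y ∈ Aq Γ A q) : x * y = y * x := by
  refine Gen_comm (fun v hv w hw x hx y hy => ?_) hx hy
  by_cases hvw : v = w
  · subst hvw
    exact hab v x hx y hy
  · exact hA v w (hq v w hv hw hvw) x hx y hy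

/-- the graph product over the graph of the classes -/
theorem Aq_gp (hM : IsGraphProd Γ (⊤ : Subgroup M) A) :
    IsGraphProd (LC Γ A) (⊤ : Subgroup M) (Aq Γ A) := by
  refine ⟨?_, ?_, ?_⟩
  · rw [eq_top_iff, ← hM.sup]
    refine iSup_le fun v => ?_
    exact (A_le_Aq v).trans (le_iSup (Aq Γ A) (cl Γ A v))
  · intro p q hpq x hx y hy
    refine Gen_comm (S := {v | cl Γ A v = p}) (T := {v | cl Γ A v = q})
      (fun v hv w hw x' hx' y' hy' => ?_) hx hy
    have hpq' : (LC Γ A).Adj (cl Γ A v) (cl Γ A w) := by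
      rw [show cl Γ A v = p from hv, show cl Γ A w = q from hw]
      exact hpq
    exact hM.comm v w (LC_adj hpq') x' hx' y' hy'
  · intro H _ f hf
    have hle : ∀ {v : V} {q : Cls Γ A}, cl Γ A v = q → A v ≤ Aq Γ A q :=
      fun h => le_Gen (S := {u | cl Γ A u = _}) h
    have hF : ∀ {v : V} {q : Cls Γ A} (h : cl Γ A v = q) (x : A v),
        f (cl Γ A v) (Subgroup.inclusion (hle rfl) x) = f q (Subgroup.inclusion (hle h) x) := by
      intro v q h x
      subst h
      rfl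
    obtain ⟨φ, hφ⟩ := hM.univ H (fun v => (f (cl Γ A v)).comp (Subgroup.inclusion (hle rfl))) (by
      intro v w hvw x y
      by_cases h : cl Γ A w = cl Γ A v
      · show f (cl Γ A v) (Subgroup.inclusion (hle rfl) x) *
            f (cl Γ A w) (Subgroup.inclusion (hle rfl) y) =
          f (cl Γ A w) (Subgroup.inclusion (hle rfl) y) *
            f (cl Γ A v) (Subgroup.inclusion (hle rfl) x)
        rw [hF h, ← map_mul, ← map_mul]
        congr 1
        apply Subtype.ext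
        exact hM.comm v w hvw x x.2 y y.2
      · exact hf _ _ ⟨Ne.symm h, v, w, rfl, rfl, hvw⟩ _ _)
    refine ⟨φ, ?_⟩
    rintro q ⟨x, hx⟩ hxt
    have key : ∃ hx : x ∈ Aq Γ A q, φ ⟨x, Subgroup.mem_top x⟩ = f q ⟨x, hx⟩ := by
      refine Gen_ind (A := A) (S := {v | cl Γ A v = q})
        (p := fun x => ∃ hx : x ∈ Aq Γ A q, φ ⟨x, Subgroup.mem_top x⟩ = f q ⟨x, hx⟩) ?_ ?_ ?_ ?_ hx
      · intro v hv y hy
        refine ⟨hle hv hy, ?_⟩
        rw [hφ v ⟨y, hy⟩ (Subgroup.mem_top _)]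
        exact hF hv ⟨y, hy⟩
      · refine ⟨one_mem _, ?_⟩
        exact (map_one φ).trans (map_one (f q)).symm
      · rintro y z ⟨hy, h1⟩ ⟨hz, h2⟩
        refine ⟨mul_mem hy hz, ?_⟩
        have h3 : (⟨y * z, Subgroup.mem_top _⟩ : (⊤ : Subgroup M)) =
          ⟨y, Subgroup.mem_top _⟩ * ⟨z, Subgroup.mem_top _⟩ := rfl
        rw [h3, map_mul, h1, h2, ← map_mul]
        rfl
      · rintro y ⟨hy, h1⟩
        refine ⟨inv_mem hy, ?_⟩
        have h3 : (⟨y⁻¹, Subgroup.mem_top _⟩ : (⊤ : Subgroup M)) = ⟨y, Subgroup.mem_top _⟩⁻¹ := rfl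
        rw [h3, map_inv, h1, ← map_inv]
        rfl
    obtain ⟨_, h1⟩ := key
    exact h1

end gp

section main

variable {G V : Type} [Group G] {N : Subgroup G} {Γ : SimpleGraph V} {A : V → Subgroup N} {r : V → ℕ}

/-- a graph product of subgroups of a subgroup -/
theorem gp_sub {I : Type} {Λ : SimpleGraph I} {B : I → Subgroup N}
    (h : IsGraphProd Λ (⊤ : Subgroup N) B) : IsGraphProd Λ N (fun i => (B i).map N.subtype) := by
  refine ⟨?_, ?_, ?_⟩
  · rw [← Subgroup.map_iSup, h.sup, ← MonoidHom.range_eq_map, Subgroup.range_subtype]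
  · rintro i j hij _ ⟨x, hx, rfl⟩ _ ⟨y, hy, rfl⟩
    rw [← map_mul, h.comm i j hij x hx y hy, map_mul]
  · intro H _ f hf
    obtain ⟨φ, hφ⟩ := h.univ H (fun i => (f i).comp (N.subtype.subgroupMap (B i)))
      (fun i j hij x y => hf i j hij _ _)
    refine ⟨φ.comp (Subgroup.topEquiv (G := N)).symm.toMonoidHom, ?_⟩
    rintro i ⟨_, x, hx, rfl⟩ hxN
    exact hφ i ⟨x, hx⟩ (Subgroup.mem_top _)

theorem Oth_map {I : Type} (B : I → Subgroup N) (S : Set I) :
    Oth N (fun q => (B q).map N.subtype) S = (Oth ⊤ B S).map N.subtype := by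
  apply le_antisymm
  · rw [Oth, Subgroup.closure_le]
    rintro _ ⟨j, hj, m, hm, _, ⟨b, hb, rfl⟩, rfl⟩
    exact ⟨⟨m, hm⟩ * b * ⟨m, hm⟩⁻¹, mem_Oth hj (Subgroup.mem_top _) hb, rfl⟩
  · rw [Subgroup.map_le_iff_le_comap, Oth, Subgroup.closure_le]
    rintro _ ⟨j, hj, m, -, b, hb, rfl⟩
    exact mem_Oth hj m.2 ⟨b, hb, rfl⟩

theorem mem_sub {X : Subgroup N} {x : G} :
    x ∈ X.map N.subtype ↔ ∃ hx : x ∈ N, (⟨x, hx⟩ : N) ∈ X := by
  constructor
  · rintro ⟨y, hy, rfl⟩
    exact ⟨y.2, hy⟩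
  · rintro ⟨hx, h⟩
    exact ⟨_, h, rfl⟩

variable (Γ A) in
/-- the class groups as subgroups of `G` -/
def AG (q : Cls Γ A) : Subgroup G := (Aq Γ A q).map N.subtype

/-- **graph products of abelian groups by groups in the class** -/
theorem main_abel (hC : ClosedE C) (hF : FbC C)
    (hS : ∀ (S : Type) [Group S], Group.IsSolvable S → C S) [N.Normal] (hQ : C (G ⧸ N))
    (hM : IsGraphProd Γ (⊤ : Subgroup N) A)
    (hab : ∀ v, ∀ x ∈ A v, ∀ y ∈ A v, x * y = y * x)
    (hr : IsHeight Γ A r) (n : ℕ) (hn : ∀ v, r v < n)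
    (hact : ∀ g : G, (MulAut.conjNormal g : MulAut N) ∈ StdAut Γ A) : C G := by
  have hmem : ∀ (q : Cls Γ A) (k : ℕ) (x : G), x ∈ AG Γ A q ⊔ Low N (AG Γ A) (rq r) k ↔
      ∃ hx : x ∈ N, (⟨x, hx⟩ : N) ∈ Aq Γ A q ⊔ Lq Γ A r k := by
    intro q k x
    have h1 : Low N (AG Γ A) (rq r) k = (Lq Γ A r k).map N.subtype := Oth_map _ _
    rw [h1, AG, ← Subgroup.map_sup, mem_sub]
  have hgp : IsGraphProd (LC Γ A) N (AG Γ A) := gp_sub (Aq_gp hM)
  refine main_filt hC hF n G (Cls Γ A) N hQ (LC Γ A) (AG Γ A) hgp (rq r) ?_ ?_ ?_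
  · intro q
    obtain ⟨v, rfl⟩ := cl_ex q
    rw [rq_cl hr]
    exact hn v
  · intro q g
    obtain ⟨q', hq', m, h⟩ := (Std_R hM.comm hab hr (hact g)).1 q
    refine ⟨q', hq', m, m.2, fun x => ?_⟩
    rw [hmem, hmem]
    constructor
    · rintro ⟨hx, h1⟩
      have h2 := (h ⟨x, hx⟩).1 h1
      refine ⟨(m * (MulAut.conjNormal g) ⟨x, hx⟩ * m⁻¹ : N).2, h2⟩
    · rintro ⟨hy, h1⟩
      have hx : x ∈ N := by
        have h2 : g * x * g⁻¹ ∈ N := by
          have h3 := N.mul_mem (N.mul_mem (N.inv_mem m.2) hy) m.2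
          have h4 : (m : G)⁻¹ * (m * (g * x * g⁻¹) * (m : G)⁻¹) * m = g * x * g⁻¹ := by group
          rwa [h4] at h3
        have h3 := Subgroup.Normal.conj_mem (inferInstance : N.Normal) _ h2 g⁻¹
        have h4 : g⁻¹ * (g * x * g⁻¹) * g⁻¹⁻¹ = x := by group
        rwa [h4] at h3
      exact ⟨hx, (h ⟨x, hx⟩).2 h1⟩
  · intro q g hg H _ π hπ
    -- the image of the class group
    obtain ⟨D, hD⟩ : ∃ D : Subgroup H, D = (AG Γ A q).map π := ⟨_, rfl⟩
    have hDX : (AG Γ A q ⊔ Low N (AG Γ A) (rq r) (rq r q)).map π = D := by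
      rw [Subgroup.map_sup, hD]
      refine sup_eq_left.2 ?_
      rintro _ ⟨x, hx, rfl⟩
      have h1 : x ∈ π.ker := by rw [hπ]; exact hx
      have h2 : π x = 1 := h1
      rw [h2]
      exact one_mem _
    have hnorm : ∀ y, y ∈ D ↔ π g * y * (π g)⁻¹ ∈ D := by
      intro y
      rw [← hDX]
      constructor
      · rintro ⟨x, hx, rfl⟩
        exact ⟨g * x * g⁻¹, (hg x).1 hx, by rw [map_mul, map_mul, map_inv]⟩
      · rintro ⟨x, hx, hxy⟩
        have h1 : x = g * (g⁻¹ * x * g) * g⁻¹ := by group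
        rw [h1] at hx
        refine ⟨g⁻¹ * x * g, (hg _).2 hx, ?_⟩
        rw [map_mul, map_mul, map_inv, hxy]
        group
    have hres : C ↥(D ⊔ Subgroup.zpowers (π g)) := by
      rcases dich q with hq | ⟨hq, hq'⟩
      · -- a clique
        have hcomm : ∀ x y : D, x * y = y * x := by
          rintro ⟨x, hx⟩ ⟨y, hy⟩
          apply Subtype.ext
          show x * y = y * x
          rw [hD] at hx hy
          obtain ⟨_, ⟨x, hx, rfl⟩, rfl⟩ := hx
          obtain ⟨_, ⟨y, hy, rfl⟩, rfl⟩ := hy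
          rw [← map_mul, ← map_mul, ← map_mul, ← map_mul, Aq_comm hM.comm hab q hq hx hy]
        let _ : CommGroup D := { (inferInstance : Group D) with mul_comm := hcomm }
        exact tori_cyc hC (Pool.Agent.W5h2.GE.tori_ab hS D) D (MulEquiv.refl D) (π g) hnorm
      · -- an independent class
        have hfr := Aq_free hM q hq hq'
        have hinj : Function.Injective ((π.comp N.subtype).comp (Aq Γ A q).subtype) := by
          rw [← MonoidHom.ker_eq_bot_iff, eq_bot_iff]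
          rintro ⟨x, hx⟩ h1
          have h2 : π (x : G) = 1 := h1
          have h3 : (x : G) ∈ Low N (AG Γ A) (rq r) (rq r q) := by
            rw [← hπ]
            exact h2
          have h4 : (x : G) ∈ Gen (AG Γ A) {j | rq r q ≤ rq r j} :=
            le_Gen (i := q) (show rq r q ≤ rq r q from le_rfl) ⟨x, hx, rfl⟩
          have h5 : (x : G) ∈ Gen (AG Γ A) {j | rq r q ≤ rq r j} ⊓
              Oth N (AG Γ A) {j | rq r q ≤ rq r j} := ⟨h4, h3⟩
          rw [gp_ind hgp, Subgroup.mem_bot] at h5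
          rw [Subgroup.mem_bot]
          apply Subtype.ext
          apply Subtype.ext
          exact h5
        have hDr : D = ((π.comp N.subtype).comp (Aq Γ A q).subtype).range := by
          rw [hD, AG, MonoidHom.range_comp, Subgroup.range_subtype, Subgroup.map_map]
        have hDf : IsFreeGroup D := by
          rw [hDr]
          exact IsFreeGroup.ofMulEquiv (MonoidHom.ofInjective hinj)
        exact tori_cyc hC (tori_free hC hF D) D (MulEquiv.refl D) (π g) hnorm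
    rw [Subgroup.map_sup, MonoidHom.map_zpowers, ← hD]
    exact hres

/-- finite graphs have a height function -/
theorem exists_height {V M : Type} [Group M] [Finite V] (Γ : SimpleGraph V) (A : V → Subgroup M) :
    ∃ r : V → ℕ, IsHeight Γ A r ∧ ∃ n, ∀ v, r v < n := by
  refine ⟨fun v => {w | Dom Γ A v w}.ncard, ⟨?_, ?_, ?_⟩, Nat.card V + 1, ?_⟩
  · intro v w h1 h2
    show {x | Dom Γ A v x}.ncard = {x | Dom Γ A w x}.ncard
    congr 1
    ext x
    exact ⟨fun h => h2.trans h, fun h => h1.trans h⟩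
  · intro v w h1 h2
    refine Set.ncard_lt_ncard ⟨fun x hx => h1.trans hx, fun h => h2 (h (Dom.refl v))⟩ (Set.toFinite _)
  · intro σ hσ hc v
    show {x | Dom Γ A (σ v) x}.ncard = {x | Dom Γ A v x}.ncard
    rw [← Set.ncard_image_of_injective {x | Dom Γ A v x} σ.injective]
    congr 1
    ext x
    constructor
    · intro hx
      obtain ⟨y, rfl⟩ := σ.surjective x
      exact ⟨y, (Dom.map hσ hc).1 hx, rfl⟩
    · rintro ⟨y, hy, rfl⟩
      exact (Dom.map hσ hc).2 hy
  · intro v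
    have h1 := Set.ncard_le_ncard (Set.subset_univ {w | Dom Γ A v w}) (Set.toFinite _)
    rw [Set.ncard_univ] at h1
    show {w | Dom Γ A v w}.ncard < Nat.card V + 1
    omega

end main

end Pool.Agent.W5h2.RG
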